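import Mathlib

/-!
# Definitions for the hand-in `MP_557517_an.CountableProperMAP`

`p`-Banach spaces, the Lipschitz free `p`-space over a pointed metric space, and the metric
approximation property.
-/

namespace Pool.Agent.MP557517

universe u v

/-- `N` is a complete `p`-norm on the real vector space `X`, that is, `(X, N)` is a `p`-Banach
space. -/
structure IsPBanach (p : ℝ) {X : Type v} [AddCommGroup X] [Module ℝ X] (N : X → ℝ) : Prop where
  /-- nonnegativity -/
  nonneg : ∀ x : X, 0 ≤ N x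
  /-- definiteness -/
  eq_zero : ∀ x : X, N x = 0 → x = 0
  /-- homogeneity -/
  smul : ∀ (a : ℝ) (x : X), N (a • x) = |a| * N x
  /-- the `p`-triangle inequality -/
  add_le : ∀ x y : X, N (x + y) ^ p ≤ N x ^ p + N y ^ p
  /-- every Cauchy sequence converges -/
  complete : ∀ u : ℕ → X,
    (∀ ε : ℝ, 0 < ε → ∃ n₀ : ℕ, ∀ m ≥ n₀, ∀ n ≥ n₀, N (u m - u n) < ε) →
    ∃ x : X, ∀ ε : ℝ, 0 < ε → ∃ n₀ : ℕ, ∀ n ≥ n₀, N (u n - x) < ε

/-- The `p`-norm of the Lipschitz free `p`-space over the metric space `K`: for a formal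
combination `μ` of points of `K` it is the infimum of `(∑ |a_i|^p d(x_i,y_i)^p)^(1/p)` over all
representations `μ = ∑ a_i (x_i - y_i)`. -/
noncomputable def freeNorm (p : ℝ) {K : Type u} [MetricSpace K] (μ : K →₀ ℝ) : ℝ :=
  sInf {c : ℝ | ∃ (n : ℕ) (a : Fin n → ℝ) (x y : Fin n → K),
    μ = ∑ i, a i • (Finsupp.single (x i) (1 : ℝ) - Finsupp.single (y i) (1 : ℝ)) ∧
    c = (∑ i, |a i| ^ p * dist (x i) (y i) ^ p) ^ (1 / p)}

/-- `(X, N)` together with `δ : K → X` is the Lipschitz free `p`-space `𝓕_p(K)` of the metric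
space `K` with base point `base`: it is a `p`-Banach space, `δ(base) = 0`, the linear span of
`δ(K)` is dense, and on this span the `p`-norm is given by `freeNorm`, i.e. `X` is the completion
of the span of the (formal) vectors `δ(x)` for the norm `freeNorm`. -/
structure IsLipschitzFreePSpace (p : ℝ) {K : Type u} [MetricSpace K] (base : K)
    {X : Type v} [AddCommGroup X] [Module ℝ X] (N : X → ℝ) (δ : K → X) : Prop where
  /-- it is a `p`-Banach space -/
  isPBanach : IsPBanach p N
  /-- normalisation at the base point -/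
  map_base : δ base = 0
  /-- the span of `δ(K)` is dense -/
  dense : ∀ (x : X) (ε : ℝ), 0 < ε → ∃ v ∈ Submodule.span ℝ (Set.range δ), N (x - v) < ε
  /-- formula for the `p`-norm on the span of `δ(K)` -/
  norm_eq : ∀ (n : ℕ) (a : Fin n → ℝ) (x y : Fin n → K),
    N (∑ i, a i • (δ (x i) - δ (y i))) =
      freeNorm p (∑ i, a i • (Finsupp.single (x i) (1 : ℝ) - Finsupp.single (y i) (1 : ℝ)))

/-- `C` is a compact subset of the `p`-normed space `(X, N)`: every sequence in `C` has a
subsequence converging to an element of `C`. -/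
def IsCompactFor {X : Type v} [AddCommGroup X] (N : X → ℝ) (C : Set X) : Prop :=
  ∀ u : ℕ → X, (∀ n, u n ∈ C) → ∃ x ∈ C, ∃ φ : ℕ → ℕ, StrictMono φ ∧
    Filter.Tendsto (fun n => N (u (φ n) - x)) Filter.atTop (nhds 0)

/-- The metric approximation property of the `p`-normed space `(X, N)`: for every compact set `C`
and every `ε > 0` there is a finite rank linear operator `T` with `‖T‖ ≤ 1` and
`‖T x - x‖ ≤ ε` for all `x ∈ C`. -/
def HasMAP {X : Type v} [AddCommGroup X] [Module ℝ X] (N : X → ℝ) : Prop :=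
  ∀ C : Set X, IsCompactFor N C → ∀ ε : ℝ, 0 < ε → ∃ T : X →ₗ[ℝ] X,
    FiniteDimensional ℝ (LinearMap.range T) ∧
    (∀ x : X, N (T x) ≤ N x) ∧
    (∀ x ∈ C, N (T x - x) ≤ ε)

end Pool.Agent.MP557517
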