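import Mathlib

/-!
# Construction of the Lipschitz free p-space and the approximation argument

Helper file for the hand-in `Pool.Agent.Results.MP_557517_an.CountableProperMAP`.

Idea of the proof. For a point `q` consider the map `f₀(x) = w(x) δ(x) + (1 - w(x)) δ(q)` where
`w(x) = min(1, η log⁺(d(x,q)/s))`. Writing
`f₀(x) - f₀(y) = w(x) (δ(x) - δ(y)) + (w(x) - w(y)) (δ(y) - δ(q))` and using
`|w(x) - w(y)| d(y,q) ≤ η d(x,y)` for `d(y,q) ≤ d(x,q)`, one gets that `f₀` is
`(1 + η^p)^(1/p)`-Lipschitz into the free `p`-space over the complement of a small ball around `q`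
(together with `q`). Such logarithmic cut-offs, combined with gluing over separated compact
pieces and a Cantor-Bendixson type argument (every nonempty countable compact set has an isolated
point), yield almost `1`-Lipschitz finite-dimensional approximations of `δ` on every countable
compact set; one more logarithmic cut-off at infinity handles proper spaces.
-/

open Finset Set

namespace Pool.Agent.MP557517

universe u

/-! ## Combinatorics of finite combinations of elementary molecules -/

section Molecules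

variable {K : Type u}

/-- A finite list `(a_i, x_i, y_i)` stands for the formal combination
`∑ a_i (δ(x_i) - δ(y_i))` of finitely supported functions on `K`. -/
noncomputable def mol (l : List (ℝ × K × K)) : K →₀ ℝ :=
  (l.map fun t => t.1 • (Finsupp.single t.2.1 (1 : ℝ) - Finsupp.single t.2.2 (1 : ℝ))).sum

/-- The `p`-cost `∑ |a_i|^p d(x_i,y_i)^p` of a list `(a_i, x_i, y_i)`. -/
noncomputable def cost (p : ℝ) [Dist K] (l : List (ℝ × K × K)) : ℝ :=
  (l.map fun t => |t.1| ^ p * dist t.2.1 t.2.2 ^ p).sum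

@[simp] lemma mol_nil : mol ([] : List (ℝ × K × K)) = 0 := by simp [mol]

lemma mol_cons (t : ℝ × K × K) (l : List (ℝ × K × K)) :
    mol (t :: l) = t.1 • (Finsupp.single t.2.1 (1 : ℝ) - Finsupp.single t.2.2 (1 : ℝ)) + mol l := by
  simp [mol]

lemma mol_append (l l' : List (ℝ × K × K)) : mol (l ++ l') = mol l + mol l' := by
  simp [mol]

/-- Linear extension of `f`. -/
noncomputable def ext (f : K → K →₀ ℝ) : (K →₀ ℝ) →ₗ[ℝ] (K →₀ ℝ) :=
  Finsupp.linearCombination ℝ f

@[simp] lemma ext_single (f : K → K →₀ ℝ) (x : K) (a : ℝ) :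
    ext f (Finsupp.single x a) = a • f x := by
  simp [ext]

variable [MetricSpace K]

@[simp] lemma cost_nil (p : ℝ) : cost p ([] : List (ℝ × K × K)) = 0 := by simp [cost]

lemma cost_cons (p : ℝ) (t : ℝ × K × K) (l : List (ℝ × K × K)) :
    cost p (t :: l) = |t.1| ^ p * dist t.2.1 t.2.2 ^ p + cost p l := by
  simp [cost]

lemma cost_append (p : ℝ) (l l' : List (ℝ × K × K)) :
    cost p (l ++ l') = cost p l + cost p l' := by
  simp [cost]

lemma cost_nonneg (p : ℝ) (l : List (ℝ × K × K)) : 0 ≤ cost p l := by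
  induction l with
  | nil => simp
  | cons t l ih =>
    rw [cost_cons]
    have : 0 ≤ |t.1| ^ p * dist t.2.1 t.2.2 ^ p := by positivity
    linarith

/-- `Bd p A μ c`: the function `μ` is a combination of elementary molecules with end points in
`A` and with `p`-cost at most `c`. -/
def Bd (p : ℝ) (A : Set K) (μ : K →₀ ℝ) (c : ℝ) : Prop :=
  ∃ l : List (ℝ × K × K), (∀ t ∈ l, t.2.1 ∈ A ∧ t.2.2 ∈ A) ∧ mol l = μ ∧ cost p l ≤ c

lemma Bd.zero (p : ℝ) (A : Set K) {c : ℝ} (hc : 0 ≤ c) : Bd p A (0 : K →₀ ℝ) c :=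
  ⟨[], by simp, by simp, by simpa using hc⟩

lemma Bd.mono {p : ℝ} {A B : Set K} {μ : K →₀ ℝ} {c c' : ℝ} (h : Bd p A μ c) (hAB : A ⊆ B)
    (hc : c ≤ c') : Bd p B μ c' := by
  obtain ⟨l, hl, hm, hcl⟩ := h
  exact ⟨l, fun t ht => ⟨hAB (hl t ht).1, hAB (hl t ht).2⟩, hm, hcl.trans hc⟩

lemma Bd.add {p : ℝ} {A : Set K} {μ ν : K →₀ ℝ} {c c' : ℝ} (h : Bd p A μ c) (h' : Bd p A ν c') :
    Bd p A (μ + ν) (c + c') := by
  obtain ⟨l, hl, hm, hcl⟩ := h
  obtain ⟨l', hl', hm', hcl'⟩ := h'
  refine ⟨l ++ l', ?_, ?_, ?_⟩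
  · intro t ht
    rcases List.mem_append.1 ht with h | h
    · exact hl t h
    · exact hl' t h
  · rw [mol_append, hm, hm']
  · rw [cost_append]; linarith

lemma Bd.smul {p : ℝ} {A : Set K} {μ : K →₀ ℝ} {c : ℝ} (a : ℝ) (h : Bd p A μ c) :
    Bd p A (a • μ) (|a| ^ p * c) := by
  obtain ⟨l, hl, hm, hcl⟩ := h
  refine ⟨l.map fun t => (a * t.1, t.2), ?_, ?_, ?_⟩
  · intro t ht
    obtain ⟨s, hs, rfl⟩ := List.mem_map.1 ht
    exact hl s hs
  · rw [← hm]
    clear hl hm hcl
    induction l with
    | nil => simp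
    | cons t l ih =>
      rw [List.map_cons, mol_cons, mol_cons, ih, smul_add, smul_smul]
  · have key : cost p (l.map fun t => (a * t.1, t.2)) = |a| ^ p * cost p l := by
      clear hl hm hcl
      induction l with
      | nil => simp
      | cons t l ih =>
        rw [List.map_cons, cost_cons, cost_cons, ih]
        simp only
        rw [abs_mul, Real.mul_rpow (abs_nonneg _) (abs_nonneg _)]
        ring
    rw [key]
    exact mul_le_mul_of_nonneg_left hcl (by positivity)

lemma Bd.neg {p : ℝ} {A : Set K} {μ : K →₀ ℝ} {c : ℝ} (h : Bd p A μ c) : Bd p A (-μ) c := by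
  have := h.smul (-1)
  simpa using this

lemma Bd.sub_comm {p : ℝ} {A : Set K} {μ ν : K →₀ ℝ} {c : ℝ} (h : Bd p A (μ - ν) c) :
    Bd p A (ν - μ) c := by
  have := h.neg
  simpa using this

lemma Bd.single {p : ℝ} {A : Set K} {x y : K} (hx : x ∈ A) (hy : y ∈ A) :
    Bd p A (Finsupp.single x (1 : ℝ) - Finsupp.single y (1 : ℝ)) (dist x y ^ p) := by
  refine ⟨[(1, x, y)], ?_, ?_, ?_⟩
  · intro t ht
    simp only [List.mem_singleton] at ht
    subst ht
    exact ⟨hx, hy⟩
  · simp [mol]
  · simp [cost]

lemma Bd.ext {p : ℝ} {A A' : Set K} {f : K → K →₀ ℝ} {L : ℝ}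
    (hf : ∀ x ∈ A, ∀ y ∈ A, Bd p A' (f x - f y) (L * dist x y ^ p)) {μ : K →₀ ℝ} {c : ℝ}
    (hL : 0 ≤ L) (h : Bd p A μ c) : Bd p A' (MP557517.ext f μ) (L * c) := by
  obtain ⟨l, hl, hm, hcl⟩ := h
  have key : Bd p A' (MP557517.ext f (mol l)) (L * cost p l) := by
    clear hm hcl
    induction l with
    | nil => simpa using Bd.zero p A' (le_refl (0 : ℝ))
    | cons t l ih =>
      have h1 := ih (fun s hs => hl s (List.mem_cons_of_mem _ hs))
      have h2 := hl t List.mem_cons_self
      have h3 := (hf _ h2.1 _ h2.2).smul t.1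
      rw [mol_cons, cost_cons, map_add, map_smul, map_sub, ext_single, ext_single, one_smul,
        one_smul]
      refine (h3.add h1).mono subset_rfl (le_of_eq ?_)
      ring
  rw [hm] at key
  exact key.mono subset_rfl (mul_le_mul_of_nonneg_left hcl hL)

end Molecules

/-! ## The logarithmic cut-off -/

section Cutoff

/-- `ell s t = log (max 1 (t/s))`. -/
noncomputable def ell (s t : ℝ) : ℝ := Real.log (max 1 (t / s))

lemma ell_nonneg (s t : ℝ) : 0 ≤ ell s t := Real.log_nonneg (le_max_left _ _)

lemma ell_mono {s a b : ℝ} (hs : 0 < s) (hab : a ≤ b) : ell s a ≤ ell s b := by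
  unfold ell
  apply Real.log_le_log (lt_of_lt_of_le one_pos (le_max_left _ _))
  exact max_le_max le_rfl (by gcongr)

lemma ell_eq_zero {s t : ℝ} (hs : 0 < s) (h : t ≤ s) : ell s t = 0 := by
  unfold ell
  rw [max_eq_left, Real.log_one]
  rwa [div_le_one hs]

lemma ell_mul_le {s b : ℝ} (hs : 0 < s) (h : s ≤ b) : ell s b * s ≤ b - s := by
  unfold ell
  have h1 : 1 ≤ b / s := by rwa [one_le_div hs]
  rw [max_eq_right h1]
  have h2 := Real.log_le_sub_one_of_pos (lt_of_lt_of_le one_pos h1)
  have h3 : Real.log (b / s) * s ≤ (b / s - 1) * s := mul_le_mul_of_nonneg_right h2 hs.le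
  have h4 : (b / s - 1) * s = b - s := by field_simp
  linarith

lemma ell_diff {s a b : ℝ} (hs : 0 < s) (_ha : 0 ≤ a) (hab : a ≤ b) :
    (ell s b - ell s a) * a ≤ b - a := by
  rcases le_or_gt a s with h | h
  · rw [ell_eq_zero hs h, sub_zero]
    rcases le_or_gt b s with h' | h'
    · rw [ell_eq_zero hs h', zero_mul]; linarith
    · have h1 := ell_mul_le hs h'.le
      have h2 : ell s b * a ≤ ell s b * s := mul_le_mul_of_nonneg_left h (ell_nonneg _ _)
      linarith
  · have ha' : 0 < a := hs.trans h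
    have hb' : 0 < b := ha'.trans_le hab
    have h1 : 1 ≤ a / s := by rw [one_le_div hs]; exact h.le
    have h2 : 1 ≤ b / s := by rw [one_le_div hs]; exact h.le.trans hab
    unfold ell
    rw [max_eq_right h1, max_eq_right h2, ← Real.log_div (by positivity) (by positivity)]
    have h3 : b / s / (a / s) = b / a := by field_simp
    rw [h3]
    have h4 := Real.log_le_sub_one_of_pos (div_pos hb' ha')
    have h5 : Real.log (b / a) * a ≤ (b / a - 1) * a := mul_le_mul_of_nonneg_right h4 ha'.le
    have h6 : (b / a - 1) * a = b - a := by field_simp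
    linarith

/-- the cut-off weight. -/
noncomputable def wt (η s t : ℝ) : ℝ := min 1 (η * ell s t)

lemma wt_nonneg {η : ℝ} (hη : 0 ≤ η) (s t : ℝ) : 0 ≤ wt η s t :=
  le_min zero_le_one (mul_nonneg hη (ell_nonneg _ _))

lemma wt_le_one (η s t : ℝ) : wt η s t ≤ 1 := min_le_left _ _

lemma wt_eq_zero {η s t : ℝ} (hs : 0 < s) (h : t ≤ s) : wt η s t = 0 := by
  unfold wt
  rw [ell_eq_zero hs h, mul_zero]
  exact min_eq_right zero_le_one

lemma wt_eq_one {η s t : ℝ} (hη : 0 < η) (hs : 0 < s) (h : s * Real.exp (1 / η) ≤ t) :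
    wt η s t = 1 := by
  unfold wt
  apply min_eq_left
  have h1 : Real.exp (1 / η) ≤ t / s := by
    rw [le_div_iff₀ hs]; linarith
  have h2 : 1 / η ≤ ell s t := by
    unfold ell
    rw [← Real.log_exp (1 / η)]
    exact Real.log_le_log (Real.exp_pos _) (h1.trans (le_max_right _ _))
  have h3 : η * (1 / η) ≤ η * ell s t := mul_le_mul_of_nonneg_left h2 hη.le
  have h4 : η * (1 / η) = 1 := by field_simp
  linarith

lemma wt_mono {η s a b : ℝ} (hη : 0 ≤ η) (hs : 0 < s) (hab : a ≤ b) : wt η s a ≤ wt η s b :=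
  min_le_min le_rfl (mul_le_mul_of_nonneg_left (ell_mono hs hab) hη)

lemma wt_diff {η s a b : ℝ} (hη : 0 ≤ η) (hs : 0 < s) (ha : 0 ≤ a) (hab : a ≤ b) :
    |wt η s b - wt η s a| * a ≤ η * (b - a) := by
  rw [abs_of_nonneg (sub_nonneg.2 (wt_mono hη hs hab))]
  have h1 : wt η s b - wt η s a ≤ η * (ell s b - ell s a) := by
    unfold wt
    have h2 := ell_mono hs hab
    have h3 : η * ell s a ≤ η * ell s b := mul_le_mul_of_nonneg_left h2 hη
    rcases le_total 1 (η * ell s b) with h | h
    · rw [min_eq_left h]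
      rcases le_total 1 (η * ell s a) with h' | h'
      · rw [min_eq_left h']; nlinarith
      · rw [min_eq_right h']; nlinarith
    · rw [min_eq_right h, min_eq_right (h3.trans h)]; nlinarith
  calc (wt η s b - wt η s a) * a ≤ η * (ell s b - ell s a) * a :=
        mul_le_mul_of_nonneg_right h1 ha
    _ = η * ((ell s b - ell s a) * a) := by ring
    _ ≤ η * (b - a) := mul_le_mul_of_nonneg_left (ell_diff hs ha hab) hη

lemma wt_mul_le {η s a b : ℝ} (hη : 0 ≤ η) (hs : 0 < s) (ha : a ≤ s) (hb : s ≤ b) :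
    wt η s b * b ≤ (1 + η) * (b - a) := by
  have h1 : wt η s b * (b - s) ≤ 1 * (b - s) :=
    mul_le_mul_of_nonneg_right (wt_le_one _ _ _) (by linarith)
  have h2 : wt η s b * s ≤ η * ell s b * s :=
    mul_le_mul_of_nonneg_right (min_le_right _ _) hs.le
  have h3 : η * (ell s b * s) ≤ η * (b - s) := mul_le_mul_of_nonneg_left (ell_mul_le hs hb) hη
  nlinarith

end Cutoff

/-! ## Good sets -/

section Good

variable {K : Type u} [MetricSpace K]

/-- `Good p A`: the isometric copy `δ` of `A` in the free `p`-space over `A` can be approximated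
uniformly by almost `1`-Lipschitz maps with finite-dimensional range. -/
def Good (p : ℝ) (A : Set K) : Prop :=
  ∀ L : ℝ, 1 < L → ∀ τ : ℝ, 0 < τ → ∃ (F : Finset K) (f : K → K →₀ ℝ),
    (∀ x ∈ A, (f x).support ⊆ F) ∧
    (∀ x ∈ A, ∀ y ∈ A, Bd p A (f x - f y) (L * dist x y ^ p)) ∧
    (∀ x ∈ A, Bd p A (f x - Finsupp.single x 1) τ)

lemma good_empty (p : ℝ) : Good p (∅ : Set K) := by
  intro L hL τ hτ
  exact ⟨∅, fun _ => 0, by simp, by simp, by simp⟩

lemma good_singleton (p : ℝ) (q : K) : Good p ({q} : Set K) := by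
  intro L hL τ hτ
  refine ⟨{q}, fun _ => Finsupp.single q 1, ?_, ?_, ?_⟩
  · intro x hx
    exact Finsupp.support_single_subset
  · intro x hx y hy
    rw [sub_self]
    exact Bd.zero _ _ (by positivity)
  · intro x hx
    rw [Set.mem_singleton_iff] at hx
    rw [hx, sub_self]
    exact Bd.zero _ _ hτ.le

lemma Good.union {p : ℝ} (hp : 0 < p) {A B : Set K} {D : ℝ} (hD : 0 < D)
    (hAB : ∀ x ∈ A, ∀ y ∈ B, D ≤ dist x y) (hA : Good p A) (hB : Good p B) :
    Good p (A ∪ B) := by
  classical
  intro L hL τ hτ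
  have hDp : 0 < D ^ p := Real.rpow_pos_of_pos hD p
  set τ' := min τ ((L - 1) * D ^ p / 2) with hτ'
  have hτ'pos : 0 < τ' := lt_min hτ (by have := sub_pos.2 hL; positivity)
  obtain ⟨F₁, f₁, h1s, h1L, h1c⟩ := hA L hL τ' hτ'pos
  obtain ⟨F₂, f₂, h2s, h2L, h2c⟩ := hB L hL τ' hτ'pos
  have hdisj : ∀ x ∈ B, x ∉ A := by
    intro x hx hx'
    have := hAB x hx' x hx
    rw [dist_self] at this
    linarith
  have key : ∀ x ∈ A, ∀ y ∈ B, Bd p (A ∪ B) (f₁ x - f₂ y) (L * dist x y ^ p) := by
    intro x hx y hy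
    have e : f₁ x - f₂ y = (f₁ x - Finsupp.single x 1) +
        ((Finsupp.single x 1 - Finsupp.single y 1) + (Finsupp.single y 1 - f₂ y)) := by abel
    rw [e]
    have a1 := (h1c x hx).mono (subset_union_left (t := B)) le_rfl
    have a2 := Bd.single (p := p) (mem_union_left B hx) (mem_union_right A hy)
    have a3 := (h2c y hy).sub_comm.mono (subset_union_right (s := A)) le_rfl
    refine (a1.add (a2.add a3)).mono subset_rfl ?_
    have h3 : D ^ p ≤ dist x y ^ p := Real.rpow_le_rpow hD.le (hAB x hx y hy) hp.le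
    have h4 : τ' ≤ (L - 1) * D ^ p / 2 := min_le_right _ _
    have h5 : (L - 1) * D ^ p ≤ (L - 1) * dist x y ^ p :=
      mul_le_mul_of_nonneg_left h3 (by linarith)
    linarith
  refine ⟨F₁ ∪ F₂, fun x => if x ∈ A then f₁ x else f₂ x, ?_, ?_, ?_⟩
  · rintro x (hx | hx)
    · simp only [hx, if_true]
      exact (h1s x hx).trans Finset.subset_union_left
    · simp only [hdisj x hx, if_false]
      exact (h2s x hx).trans Finset.subset_union_right
  · rintro x (hx | hx) y (hy | hy)
    · simp only [hx, hy, if_true]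
      exact (h1L x hx y hy).mono subset_union_left le_rfl
    · simp only [hx, hdisj y hy, if_true, if_false]
      exact key x hx y hy
    · simp only [hdisj x hx, hy, if_true, if_false]
      rw [dist_comm]
      exact (key y hy x hx).sub_comm
    · simp only [hdisj x hx, hdisj y hy, if_false]
      exact (h2L x hx y hy).mono subset_union_right le_rfl
  · rintro x (hx | hx)
    · simp only [hx, if_true]
      exact (h1c x hx).mono subset_union_left (min_le_left _ _)
    · simp only [hdisj x hx, if_false]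
      exact (h2c x hx).mono subset_union_right (min_le_left _ _)

/-- The basic interpolation estimate. -/
lemma interp {p : ℝ} (hp : 0 < p) {A : Set K} {gx gy gq : K →₀ ℝ} {L η wx wy dxy dyq : ℝ}
    (hL : 0 ≤ L) (hη : 0 ≤ η) (hdxy : 0 ≤ dxy) (hdyq : 0 ≤ dyq)
    (h1 : Bd p A (gx - gy) (L * dxy ^ p)) (h2 : Bd p A (gy - gq) (L * dyq ^ p))
    (hw0 : 0 ≤ wx) (hw1 : wx ≤ 1) (hw : |wx - wy| * dyq ≤ η * dxy) :
    Bd p A ((wx • gx + (1 - wx) • gq) - (wy • gy + (1 - wy) • gq))
      (L * (1 + η ^ p) * dxy ^ p) := by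
  have e : (wx • gx + (1 - wx) • gq) - (wy • gy + (1 - wy) • gq)
      = wx • (gx - gy) + (wx - wy) • (gy - gq) := by
    module
  rw [e]
  refine ((h1.smul wx).add (h2.smul (wx - wy))).mono subset_rfl ?_
  have h3 : |wx| ^ p ≤ 1 := by
    rw [abs_of_nonneg hw0]
    exact Real.rpow_le_one hw0 hw1 hp.le
  have h4 : |wx - wy| ^ p * dyq ^ p ≤ η ^ p * dxy ^ p := by
    rw [← Real.mul_rpow (abs_nonneg _) hdyq, ← Real.mul_rpow hη hdxy]
    exact Real.rpow_le_rpow (by positivity) hw hp.le
  have h5 : 0 ≤ L * dxy ^ p := by positivity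
  have h6 : |wx| ^ p * (L * dxy ^ p) ≤ 1 * (L * dxy ^ p) := mul_le_mul_of_nonneg_right h3 h5
  have h7 : L * (|wx - wy| ^ p * dyq ^ p) ≤ L * (η ^ p * dxy ^ p) :=
    mul_le_mul_of_nonneg_left h4 hL
  calc |wx| ^ p * (L * dxy ^ p) + |wx - wy| ^ p * (L * dyq ^ p)
      = |wx| ^ p * (L * dxy ^ p) + L * (|wx - wy| ^ p * dyq ^ p) := by ring
    _ ≤ 1 * (L * dxy ^ p) + L * (η ^ p * dxy ^ p) := add_le_add h6 h7
    _ = L * (1 + η ^ p) * dxy ^ p := by ring

lemma exists_eta {p : ℝ} (hp : 0 < p) {L : ℝ} (hL : 1 < L) : ∃ η : ℝ, 0 < η ∧ 1 + η ^ p ≤ L := by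
  refine ⟨(L - 1) ^ (1 / p), Real.rpow_pos_of_pos (by linarith) _, ?_⟩
  rw [← Real.rpow_mul (by linarith), one_div, inv_mul_cancel₀ hp.ne', Real.rpow_one]
  linarith

lemma good_of_point {p : ℝ} (hp : 0 < p) (hp1 : p ≤ 1) {B : Set K} {q : K} (hq : q ∈ B)
    (h : ∀ s : ℝ, 0 < s → Good p (B \ Metric.ball q s)) : Good p B := by
  classical
  intro L hL τ hτ
  set L₁ := Real.sqrt L with hL₁
  have hL₁1 : 1 < L₁ := by
    rw [hL₁]; exact Real.lt_sqrt_of_sq_lt (by simpa using hL)
  have hL₁L : L₁ * L₁ = L := Real.mul_self_sqrt (by linarith)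
  obtain ⟨η, hη, hηL⟩ := exists_eta hp hL₁1
  -- outer radius
  obtain ⟨s, hs, hsτ⟩ : ∃ s : ℝ, 0 < s ∧ s ^ p ≤ τ / 2 := by
    refine ⟨(τ / 2) ^ (1 / p), Real.rpow_pos_of_pos (by linarith) _, ?_⟩
    rw [← Real.rpow_mul (by linarith), one_div, inv_mul_cancel₀ hp.ne', Real.rpow_one]
  set s' := s / Real.exp (1 / η) with hs'
  have hs'pos : 0 < s' := div_pos hs (Real.exp_pos _)
  have hss' : s' * Real.exp (1 / η) = s := by rw [hs']; field_simp
  have hs's : s' ≤ s := by
    rw [← hss']
    have : 1 ≤ Real.exp (1 / η) := Real.one_le_exp (by positivity)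
    nlinarith
  set A' : Set K := (B \ Metric.ball q s') ∪ {q} with hA'
  have hA'good : Good p A' := by
    refine Good.union hp hs'pos ?_ (h s' hs'pos) (good_singleton p q)
    rintro x hx y hy
    rw [Set.mem_singleton_iff] at hy
    subst hy
    have := hx.2
    rw [Metric.mem_ball, not_lt] at this
    exact this
  have hA'B : A' ⊆ B := by
    rintro x (hx | hx)
    · exact hx.1
    · rw [Set.mem_singleton_iff] at hx; rw [hx]; exact hq
  have hqA' : q ∈ A' := mem_union_right _ rfl
  obtain ⟨F, g, hgs, hgL, hgc⟩ := hA'good L₁ hL₁1 (τ / 4) (by linarith)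
  -- the new map
  set w : K → ℝ := fun x => wt η s' (dist x q) with hw
  have hw0 : ∀ x, 0 ≤ w x := fun x => wt_nonneg hη.le _ _
  have hw1 : ∀ x, w x ≤ 1 := fun x => wt_le_one _ _ _
  have hmem : ∀ x ∈ B, x ∉ A' → dist x q < s' ∧ w x = 0 := by
    intro x hx hx'
    have h1 : dist x q < s' := by
      by_contra hcon
      exact hx' (mem_union_left _ ⟨hx, by simpa using hcon⟩)
    exact ⟨h1, wt_eq_zero hs'pos h1.le⟩
  have hL₁0 : 0 ≤ L₁ := by linarith
  -- one sided estimate
  have key : ∀ x ∈ B, ∀ y ∈ B, dist y q ≤ dist x q →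
      Bd p A' ((w x • g x + (1 - w x) • g q) - (w y • g y + (1 - w y) • g q))
        (L * dist x y ^ p) := by
    intro x hx y hy hxy
    have htri : dist x q - dist y q ≤ dist x y := by
      have := dist_triangle x y q
      linarith
    by_cases hxA : x ∈ A'
    · by_cases hyA : y ∈ A'
      · have h1 := hgL x hxA y hyA
        have h2 := hgL y hyA q hqA'
        have h3 := interp hp hL₁0 hη.le dist_nonneg dist_nonneg h1 h2 (hw0 x) (hw1 x)
          (wy := w y) (by
            have := wt_diff hη.le hs'pos (dist_nonneg (x := y) (y := q)) hxy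
            calc |w x - w y| * dist y q ≤ η * (dist x q - dist y q) := this
              _ ≤ η * dist x y := mul_le_mul_of_nonneg_left htri hη.le)
        refine h3.mono subset_rfl ?_
        rw [← hL₁L]
        gcongr
      · obtain ⟨hyq, hwy⟩ := hmem y hy hyA
        rw [hwy, zero_smul, sub_zero, one_smul, zero_add]
        have e : w x • g x + (1 - w x) • g q - g q = w x • (g x - g q) := by module
        rw [e]
        have h1 := (hgL x hxA q hqA').smul (w x)
        refine h1.mono subset_rfl ?_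
        rcases le_or_gt s' (dist x q) with hsx | hsx
        · have h2 := wt_mul_le hη.le hs'pos hyq.le hsx
          have h3 : w x * dist x q ≤ (1 + η) * dist x y := by
            calc w x * dist x q ≤ (1 + η) * (dist x q - dist y q) := h2
              _ ≤ (1 + η) * dist x y := by gcongr
          have h4 : (w x * dist x q) ^ p ≤ ((1 + η) * dist x y) ^ p :=
            Real.rpow_le_rpow (mul_nonneg (hw0 x) dist_nonneg) h3 hp.le
          rw [Real.mul_rpow (hw0 x) dist_nonneg,
            Real.mul_rpow (by linarith) dist_nonneg] at h4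
          have h5 : (1 + η) ^ p ≤ 1 + η ^ p := by
            have := Real.rpow_add_le_add_rpow (zero_le_one) hη.le hp.le hp1
            rwa [Real.one_rpow] at this
          have h6 : (1 + η) ^ p ≤ L₁ := h5.trans hηL
          rw [abs_of_nonneg (hw0 x), ← hL₁L]
          calc w x ^ p * (L₁ * dist x q ^ p) = L₁ * (w x ^ p * dist x q ^ p) := by ring
            _ ≤ L₁ * ((1 + η) ^ p * dist x y ^ p) := by gcongr
            _ ≤ L₁ * (L₁ * dist x y ^ p) := by gcongr
            _ = L₁ * L₁ * dist x y ^ p := by ring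
        · have : w x = 0 := wt_eq_zero hs'pos hsx.le
          rw [this, abs_zero, Real.zero_rpow hp.ne', zero_mul]
          positivity
    · obtain ⟨hxq, hwx⟩ := hmem x hx hxA
      have hwy : w y = 0 := wt_eq_zero hs'pos (hxy.trans hxq.le)
      rw [hwx, hwy]
      simp only [zero_smul, sub_zero, one_smul, zero_add, sub_self]
      exact Bd.zero _ _ (by positivity)
  refine ⟨F, fun x => w x • g x + (1 - w x) • g q, ?_, ?_, ?_⟩
  · intro x hx
    by_cases hxA : x ∈ A'
    · refine Finsupp.support_add.trans (Finset.union_subset ?_ ?_)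
      · exact Finsupp.support_smul.trans (hgs x hxA)
      · exact Finsupp.support_smul.trans (hgs q hqA')
    · obtain ⟨hxq, hwx⟩ := hmem x hx hxA
      simp only [hwx, zero_smul, sub_zero, one_smul, zero_add]
      exact hgs q hqA'
  · intro x hx y hy
    rcases le_total (dist y q) (dist x q) with hxy | hxy
    · exact (key x hx y hy hxy).mono hA'B le_rfl
    · have := (key y hy x hx hxy).sub_comm
      rw [dist_comm x y]
      exact this.mono hA'B le_rfl
  · intro x hx
    have e : w x • g x + (1 - w x) • g q - Finsupp.single x 1 =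
        w x • (g x - Finsupp.single x 1) + ((1 - w x) • (g q - Finsupp.single q 1)
          + (1 - w x) • (Finsupp.single q 1 - Finsupp.single x 1)) := by module
    have hb2 : Bd p B ((1 - w x) • (g q - Finsupp.single q 1)) (τ / 4) := by
      refine ((hgc q hqA').smul (1 - w x)).mono hA'B ?_
      have : |1 - w x| ^ p ≤ 1 := by
        rw [abs_of_nonneg (by linarith [hw1 x])]
        exact Real.rpow_le_one (by linarith [hw1 x]) (by linarith [hw0 x]) hp.le
      have := mul_le_mul_of_nonneg_right this (by linarith : (0:ℝ) ≤ τ / 4)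
      linarith
    have hb3 : Bd p B ((1 - w x) • (Finsupp.single q (1:ℝ) - Finsupp.single x 1)) (τ / 2) := by
      refine ((Bd.single (p := p) hq hx).smul (1 - w x)).mono subset_rfl ?_
      rcases le_or_gt s (dist x q) with hsx | hsx
      · have : w x = 1 := wt_eq_one hη hs'pos (by rw [hss']; exact hsx)
        rw [this, sub_self, abs_zero, Real.zero_rpow hp.ne', zero_mul]
        linarith
      · have h1 : |1 - w x| ^ p ≤ 1 := by
          rw [abs_of_nonneg (by linarith [hw1 x])]
          exact Real.rpow_le_one (by linarith [hw1 x]) (by linarith [hw0 x]) hp.le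
        have h2 : dist q x ^ p ≤ s ^ p := by
          rw [dist_comm]
          exact Real.rpow_le_rpow dist_nonneg hsx.le hp.le
        calc |1 - w x| ^ p * dist q x ^ p ≤ 1 * s ^ p := by gcongr
          _ ≤ τ / 2 := by linarith
    have hb1 : Bd p B (w x • (g x - Finsupp.single x 1)) (τ / 4) := by
      by_cases hxA : x ∈ A'
      · refine ((hgc x hxA).smul (w x)).mono hA'B ?_
        have : |w x| ^ p ≤ 1 := by
          rw [abs_of_nonneg (hw0 x)]
          exact Real.rpow_le_one (hw0 x) (hw1 x) hp.le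
        have := mul_le_mul_of_nonneg_right this (by linarith : (0:ℝ) ≤ τ / 4)
        linarith
      · obtain ⟨hxq, hwx⟩ := hmem x hx hxA
        rw [hwx, zero_smul]
        exact Bd.zero _ _ (by linarith)
    simp only
    rw [e]
    refine (hb1.add (hb2.add hb3)).mono subset_rfl (by linarith)

/-- `Nice p A x`: every compact subset of `A` close to `x` is good. -/
def Nice (p : ℝ) (A : Set K) (x : K) : Prop :=
  ∃ ε > 0, ∀ C : Set K, IsCompact C → C ⊆ A ∩ Metric.closedBall x ε → Good p C

lemma exists_radius {A : Set K} (hA : A.Countable) (x : K) {ε : ℝ} (hε : 0 < ε) :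
    ∃ ε' : ℝ, 0 < ε' ∧ ε' < ε ∧ A ∩ Metric.ball x ε' = A ∩ Metric.closedBall x ε' := by
  have h1 : ((fun y => dist y x) '' A).Countable := hA.image _
  have h2 : ¬ (Set.Ioo (0 : ℝ) ε).Countable := by
    intro h
    have h3 := (Set.Ioo_infinite hε)
    have := Cardinal.mk_Ioo_real hε
    have h4 : Cardinal.mk (Set.Ioo (0:ℝ) ε) ≤ Cardinal.aleph0 := Cardinal.le_aleph0_iff_set_countable.2 h
    rw [this] at h4
    exact absurd h4 (not_le.2 Cardinal.aleph0_lt_continuum)
  obtain ⟨ε', hε', hn⟩ : ∃ ε' ∈ Set.Ioo (0 : ℝ) ε, ε' ∉ (fun y => dist y x) '' A := by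
    by_contra hcon
    push Not at hcon
    exact h2 (h1.mono hcon)
  refine ⟨ε', hε'.1, hε'.2, ?_⟩
  ext y
  constructor
  · rintro ⟨hy, hb⟩
    exact ⟨hy, Metric.ball_subset_closedBall hb⟩
  · rintro ⟨hy, hb⟩
    refine ⟨hy, ?_⟩
    rw [Metric.mem_closedBall] at hb
    rw [Metric.mem_ball]
    refine lt_of_le_of_ne hb ?_
    intro he
    exact hn ⟨y, hy, he⟩

lemma exists_sep {A B : Set K} (hA : IsCompact A) (hB : IsCompact B) (h : Disjoint A B) :
    ∃ D : ℝ, 0 < D ∧ ∀ x ∈ A, ∀ y ∈ B, D ≤ dist x y := by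
  rcases A.eq_empty_or_nonempty with rfl | hAn
  · exact ⟨1, one_pos, by simp⟩
  rcases B.eq_empty_or_nonempty with rfl | hBn
  · exact ⟨1, one_pos, by simp⟩
  obtain ⟨z, hz, hmin⟩ := (hA.prod hB).exists_isMinOn (hAn.prod hBn)
    (f := fun z : K × K => dist z.1 z.2) (by fun_prop)
  refine ⟨dist z.1 z.2, ?_, ?_⟩
  · rw [dist_pos]
    intro he
    exact Set.disjoint_left.1 h hz.1 (he ▸ hz.2)
  · intro x hx y hy
    exact hmin (Set.mk_mem_prod hx hy)

lemma local_global {p : ℝ} (hp : 0 < p) {A : Set K} (hAc : A.Countable) (hA : IsCompact A)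
    {B : Set K} (hB : IsCompact B) (hBA : B ⊆ A) (hnice : ∀ x ∈ B, Nice p A x) : Good p B := by
  have key : ∃ W : Set K, B ⊆ W ∧ IsOpen W ∧ IsCompact (A ∩ W) ∧
      ∀ C, IsCompact C → C ⊆ A ∩ W → Good p C := by
    refine hB.induction_on (p := fun U => ∃ W : Set K, U ⊆ W ∧ IsOpen W ∧ IsCompact (A ∩ W) ∧
      ∀ C, IsCompact C → C ⊆ A ∩ W → Good p C) ?_ ?_ ?_ ?_
    · refine ⟨∅, subset_rfl, isOpen_empty, by simp, ?_⟩
      intro C hC hCe
      have : C = ∅ := by
        rw [Set.inter_empty] at hCe
        exact Set.subset_empty_iff.1 hCe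
      rw [this]; exact good_empty p
    · rintro s t hst ⟨W, hW, h⟩
      exact ⟨W, hst.trans hW, h⟩
    · rintro s t ⟨W₁, h1, h1o, h1c, h1g⟩ ⟨W₂, h2, h2o, h2c, h2g⟩
      refine ⟨W₁ ∪ W₂, Set.union_subset_union h1 h2, h1o.union h2o, ?_, ?_⟩
      · rw [Set.inter_union_distrib_left]; exact h1c.union h2c
      · intro C hC hCW
        have hC1 : IsCompact (C ∩ (A ∩ W₁)) := hC.inter h1c
        have hC2 : IsCompact (C \ W₁) := hC.diff h1o
        have hdis : Disjoint (C ∩ (A ∩ W₁)) (C \ W₁) := by
          rw [Set.disjoint_left]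
          rintro x ⟨_, _, hx⟩ ⟨_, hx'⟩
          exact hx' hx
        obtain ⟨D, hD, hDd⟩ := exists_sep hC1 hC2 hdis
        have hg1 : Good p (C ∩ (A ∩ W₁)) := h1g _ hC1 Set.inter_subset_right
        have hg2 : Good p (C \ W₁) := by
          refine h2g _ hC2 ?_
          rintro x ⟨hx, hx'⟩
          obtain ⟨hxA, hx1 | hx2⟩ := hCW hx
          · exact absurd hx1 hx'
          · exact ⟨hxA, hx2⟩
        have e : C = (C ∩ (A ∩ W₁)) ∪ (C \ W₁) := by
          ext x
          constructor
          · intro hx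
            by_cases hx1 : x ∈ W₁
            · exact Or.inl ⟨hx, (hCW hx).1, hx1⟩
            · exact Or.inr ⟨hx, hx1⟩
          · rintro (hx | hx)
            · exact hx.1
            · exact hx.1
        rw [e]
        exact Good.union hp hD hDd hg1 hg2
    · intro x hx
      obtain ⟨ε, hε, hg⟩ := hnice x hx
      obtain ⟨ε', hε', hε'ε, he⟩ := exists_radius hAc x hε
      refine ⟨Metric.ball x ε', mem_nhdsWithin_of_mem_nhds (Metric.ball_mem_nhds x hε'),
        Metric.ball x ε', subset_rfl, Metric.isOpen_ball, ?_, ?_⟩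
      · rw [he]
        exact hA.inter_right Metric.isClosed_closedBall
      · intro C hC hCA
        refine hg C hC (hCA.trans ?_)
        exact Set.inter_subset_inter_right _
          (Metric.ball_subset_closedBall.trans (Metric.closedBall_subset_closedBall hε'ε.le))
  obtain ⟨W, hBW, -, -, hg⟩ := key
  exact hg B hB (Set.subset_inter hBA hBW)

lemma good_of_countable_compact [CompleteSpace K] {p : ℝ} (hp : 0 < p) (hp1 : p ≤ 1)
    {A : Set K} (hAc : A.Countable) (hA : IsCompact A) : Good p A := by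
  set N : Set K := {x | Nice p A x} with hN
  have hNo : IsOpen N := by
    rw [Metric.isOpen_iff]
    rintro x ⟨ε, hε, hg⟩
    refine ⟨ε / 2, half_pos hε, ?_⟩
    intro y hy
    refine ⟨ε / 2, half_pos hε, ?_⟩
    intro C hC hCA
    refine hg C hC (hCA.trans ?_)
    refine Set.inter_subset_inter_right _ ?_
    refine Metric.closedBall_subset_closedBall' ?_
    rw [Metric.mem_ball] at hy
    linarith
  set P : Set K := A \ N with hP
  have hPc : IsClosed P := hA.isClosed.sdiff hNo
  have hPempty : P = ∅ := by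
    by_contra hne
    have hne' : P.Nonempty := Set.nonempty_iff_ne_empty.2 hne
    have hnp : ¬ Perfect P := by
      intro hperf
      obtain ⟨f, hf1, -, hf2⟩ := hperf.exists_nat_bool_injection hne'
      have h1 : P.Countable := hAc.mono (fun x hx => hx.1)
      have h2 : (Set.range f).Countable := h1.mono hf1
      have h2' : Countable (Set.range f) := h2.to_subtype
      have h5 : Cardinal.mk (ℕ → Bool) = 2 ^ Cardinal.aleph0 := by simp
      have h3 : Countable (ℕ → Bool) :=
        ((Set.rangeFactorization_injective).2 hf2).countable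
      have h4 : Cardinal.mk (ℕ → Bool) ≤ Cardinal.aleph0 := Cardinal.mk_le_aleph0_iff.2 h3
      rw [h5] at h4
      exact absurd h4 (not_le.2 (Cardinal.cantor _))
    have hnpre : ¬ Preperfect P := fun h => hnp ⟨hPc, h⟩
    rw [preperfect_iff_nhds] at hnpre
    push Not at hnpre
    obtain ⟨q, hqP, U, hU, hUP⟩ := hnpre
    obtain ⟨ρ, hρ, hρU⟩ := Metric.mem_nhds_iff.1 hU
    -- all points of A near q other than q are nice
    have hnear : ∀ x ∈ A, x ∈ Metric.ball q ρ → x ≠ q → Nice p A x := by
      intro x hxA hxb hxq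
      by_contra hcon
      exact hxq (hUP x ⟨hρU hxb, hxA, hcon⟩)
    have hsub : Metric.closedBall q (ρ / 2) ⊆ Metric.ball q ρ :=
      Metric.closedBall_subset_ball (by linarith)
    have hqN : q ∈ N := by
      refine ⟨ρ / 2, half_pos hρ, ?_⟩
      intro C hC hCA
      by_cases hqC : q ∈ C
      · refine good_of_point hp hp1 hqC ?_
        intro s hs
        refine local_global hp hAc hA (hC.diff Metric.isOpen_ball)
          (fun x hx => (hCA hx.1).1) ?_
        rintro x ⟨hxC, hxs⟩
        refine hnear x (hCA hxC).1 (hsub (hCA hxC).2) ?_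
        rintro rfl
        exact hxs (Metric.mem_ball_self hs)
      · refine local_global hp hAc hA hC (fun x hx => (hCA hx).1) ?_
        intro x hxC
        refine hnear x (hCA hxC).1 (hsub (hCA hxC).2) ?_
        rintro rfl
        exact hqC hxC
    exact hqP.2 hqN
  refine local_global hp hAc hA hA subset_rfl ?_
  intro x hx
  by_contra hcon
  have : x ∈ P := ⟨hx, hcon⟩
  rw [hPempty] at this
  exact this

/-- The approximation statement for countable proper spaces. -/
lemma approx_of_proper [ProperSpace K] [Countable K] {p : ℝ} (hp : 0 < p) (hp1 : p ≤ 1)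
    (base : K) {L : ℝ} (hL : 1 < L) {τ : ℝ} (hτ : 0 < τ) (S : Finset K) :
    ∃ (F : Finset K) (f : K → K →₀ ℝ), (∀ x, (f x).support ⊆ F) ∧
      (∀ x y, Bd p Set.univ (f x - f y) (L * dist x y ^ p)) ∧
      (∀ x ∈ S, Bd p Set.univ (f x - Finsupp.single x 1) τ) := by
  classical
  -- a radius containing S
  obtain ⟨r, hr, hSr⟩ : ∃ r : ℝ, 0 < r ∧ ∀ x ∈ S, dist x base ≤ r := by
    refine ⟨1 + ∑ x ∈ S, dist x base, ?_, ?_⟩
    · have : 0 ≤ ∑ x ∈ S, dist x base := Finset.sum_nonneg fun _ _ => dist_nonneg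
      linarith
    · intro x hx
      have := Finset.single_le_sum (f := fun x => dist x base)
        (fun _ _ => dist_nonneg) hx
      linarith
  set L₁ := Real.sqrt L with hL₁
  have hL₁1 : 1 < L₁ := by
    rw [hL₁]; exact Real.lt_sqrt_of_sq_lt (by simpa using hL)
  have hL₁L : L₁ * L₁ = L := Real.mul_self_sqrt (by linarith)
  have hL₁0 : 0 ≤ L₁ := by linarith
  obtain ⟨η, hη, hηL⟩ := exists_eta hp hL₁1
  set R := r * Real.exp (1 / η) with hR
  set A : Set K := Metric.closedBall base R with hA
  have hRpos : 0 < R := mul_pos hr (Real.exp_pos _)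
  have hbA : base ∈ A := Metric.mem_closedBall_self hRpos.le
  have hgood : Good p A :=
    good_of_countable_compact hp hp1 (Set.to_countable A) (isCompact_closedBall base R)
  obtain ⟨F, g, hgs, hgL, hgc⟩ := hgood L₁ hL₁1 τ hτ
  -- weight: 1 near the base point, 0 far away
  set w : K → ℝ := fun x => 1 - wt η r (dist x base) with hw
  have hw0 : ∀ x, 0 ≤ w x := fun x => sub_nonneg.2 (wt_le_one _ _ _)
  have hw1 : ∀ x, w x ≤ 1 := fun x => by
    have := wt_nonneg hη.le r (dist x base)
    simp only [hw]; linarith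
  have hwout : ∀ x, x ∉ A → w x = 0 := by
    intro x hx
    rw [hA, Metric.mem_closedBall, not_le] at hx
    simp only [hw]
    rw [wt_eq_one hη hr (by rw [← hR]; exact hx.le), sub_self]
  have hwin : ∀ x ∈ S, w x = 1 := by
    intro x hx
    simp only [hw]
    rw [wt_eq_zero hr (hSr x hx), sub_zero]
  have hSA : ∀ x ∈ S, x ∈ A := by
    intro x hx
    rw [hA, Metric.mem_closedBall]
    have : 1 ≤ Real.exp (1 / η) := Real.one_le_exp (by positivity)
    have h2 := hSr x hx
    nlinarith
  have hwdiff : ∀ x y, dist y base ≤ dist x base →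
      |w x - w y| * dist y base ≤ η * dist x y := by
    intro x y hxy
    have h1 := wt_diff hη.le hr (dist_nonneg (x := y) (y := base)) hxy
    have h2 : |w x - w y| = |wt η r (dist x base) - wt η r (dist y base)| := by
      simp only [hw]
      rw [abs_sub_comm]
      congr 1
      ring
    rw [h2]
    refine h1.trans ?_
    have h3 := dist_triangle x y base
    exact mul_le_mul_of_nonneg_left (by linarith) hη.le
  have key : ∀ x y, dist y base ≤ dist x base →
      Bd p A ((w x • g x + (1 - w x) • g base) - (w y • g y + (1 - w y) • g base))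
        (L * dist x y ^ p) := by
    intro x y hxy
    by_cases hyA : y ∈ A
    · by_cases hxA : x ∈ A
      · have h3 := interp hp hL₁0 hη.le dist_nonneg dist_nonneg (hgL x hxA y hyA)
          (hgL y hyA base hbA) (hw0 x) (hw1 x) (wy := w y) (hwdiff x y hxy)
        refine h3.mono subset_rfl ?_
        rw [← hL₁L]
        gcongr
      · have hwx := hwout x hxA
        have h0 := hwdiff x y hxy
        rw [hwx] at h0 ⊢
        have e : ((0:ℝ) • g x + (1 - (0:ℝ)) • g base) - (w y • g y + (1 - w y) • g base)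
            = w y • (g base - g y) := by module
        rw [e]
        refine ((hgL base hbA y hyA).smul (w y)).mono subset_rfl ?_
        rw [zero_sub, abs_neg] at h0
        have h4 : (|w y| * dist y base) ^ p ≤ (η * dist x y) ^ p :=
          Real.rpow_le_rpow (by positivity) h0 hp.le
        rw [Real.mul_rpow (abs_nonneg _) dist_nonneg,
          Real.mul_rpow hη.le dist_nonneg] at h4
        rw [dist_comm base y, ← hL₁L]
        have h5 : η ^ p ≤ L₁ := by linarith
        calc |w y| ^ p * (L₁ * dist y base ^ p) = L₁ * (|w y| ^ p * dist y base ^ p) := by ring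
          _ ≤ L₁ * (η ^ p * dist x y ^ p) := by gcongr
          _ ≤ L₁ * (L₁ * dist x y ^ p) := by gcongr
          _ = L₁ * L₁ * dist x y ^ p := by ring
    · have hxA : x ∉ A := by
        intro hx
        rw [hA, Metric.mem_closedBall] at hx hyA
        exact hyA (hxy.trans hx)
      rw [hwout x hxA, hwout y hyA]
      simp only [zero_smul, sub_zero, one_smul, zero_add, sub_self]
      exact Bd.zero _ _ (by positivity)
  refine ⟨F, fun x => w x • g x + (1 - w x) • g base, ?_, ?_, ?_⟩
  · intro x
    by_cases hxA : x ∈ A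
    · refine Finsupp.support_add.trans (Finset.union_subset ?_ ?_)
      · exact Finsupp.support_smul.trans (hgs x hxA)
      · exact Finsupp.support_smul.trans (hgs base hbA)
    · have hwx := hwout x hxA
      simp only [hwx, zero_smul, sub_zero, one_smul, zero_add]
      exact hgs base hbA
  · intro x y
    rcases le_total (dist y base) (dist x base) with hxy | hxy
    · exact (key x y hxy).mono (Set.subset_univ _) le_rfl
    · have := (key y x hxy).sub_comm
      rw [dist_comm x y]
      exact this.mono (Set.subset_univ _) le_rfl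
  · intro x hx
    have : w x • g x + (1 - w x) • g base = g x := by rw [hwin x hx]; module
    simp only [this]
    exact (hgc x (hSA x hx)).mono (Set.subset_univ _) le_rfl

end Good

/-! ## The Lipschitz free `p`-space -/

section FreeSpace

variable {K : Type u}

/-- The vector `δ(x)` in the space of finite formal combinations of points of `K`, where `δ` is
normalised by `δ(base) = 0`: it is the formal difference of the points `x` and `base`. -/
noncomputable def delta (base x : K) : K →₀ ℝ :=
  Finsupp.single x (1 : ℝ) - Finsupp.single base (1 : ℝ)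

/-- The finite combination `∑ a_i (δ(x_i) - δ(y_i))` attached to a list `(a_i, x_i, y_i)`. -/
noncomputable def comb (base : K) (l : List (ℝ × K × K)) : K →₀ ℝ :=
  (l.map fun t => t.1 • (delta base t.2.1 - delta base t.2.2)).sum

/-- The linear span of the vectors `δ(x)`, `x ∈ K`. The exponent `p` is recorded because this
space will carry the `p`-norm of the Lipschitz free `p`-space. -/
def PreFree (_p : ℝ) (base : K) : Type u :=
  Submodule.span ℝ (Set.range (delta base))

/-- The vector space structure of the span of the vectors `δ(x)`. -/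
noncomputable instance (p : ℝ) (base : K) : AddCommGroup (PreFree p base) :=
  inferInstanceAs (AddCommGroup (Submodule.span ℝ (Set.range (delta base))))

/-- The vector space structure of the span of the vectors `δ(x)`. -/
noncomputable instance (p : ℝ) (base : K) : Module ℝ (PreFree p base) :=
  inferInstanceAs (Module ℝ (Submodule.span ℝ (Set.range (delta base))))

/-- The inclusion of the span of the `δ(x)` into the formal combinations. -/
noncomputable def PreFree.incl (p : ℝ) (base : K) : PreFree p base →ₗ[ℝ] (K →₀ ℝ) :=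
  (Submodule.span ℝ (Set.range (delta base))).subtype

lemma comb_eq_mol (base : K) (l : List (ℝ × K × K)) : comb base l = mol l := by
  simp [comb, mol, delta]

lemma delta_sub_mem (base x y : K) : Finsupp.single x (1 : ℝ) - Finsupp.single y (1 : ℝ) ∈
    Submodule.span ℝ (Set.range (delta base)) := by
  have e : Finsupp.single x (1 : ℝ) - Finsupp.single y (1 : ℝ) = delta base x - delta base y := by
    simp [delta]
  rw [e]
  exact Submodule.sub_mem _ (Submodule.subset_span ⟨x, rfl⟩) (Submodule.subset_span ⟨y, rfl⟩)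

lemma mol_mem_span (base : K) (l : List (ℝ × K × K)) :
    mol l ∈ Submodule.span ℝ (Set.range (delta base)) := by
  induction l with
  | nil => rw [mol_nil]; exact Submodule.zero_mem _
  | cons t l ih =>
    rw [mol_cons]
    exact Submodule.add_mem _ (Submodule.smul_mem _ _ (delta_sub_mem base _ _)) ih

lemma exists_mol (base : K) {μ : K →₀ ℝ} (h : μ ∈ Submodule.span ℝ (Set.range (delta base))) :
    ∃ l : List (ℝ × K × K), mol l = μ := by
  induction h using Submodule.span_induction with
  | mem x hx =>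
    obtain ⟨y, rfl⟩ := hx
    exact ⟨[(1, y, base)], by simp [mol, delta]⟩
  | zero => exact ⟨[], mol_nil⟩
  | add x y _ _ hx hy =>
    obtain ⟨l, rfl⟩ := hx
    obtain ⟨l', rfl⟩ := hy
    exact ⟨l ++ l', mol_append l l'⟩
  | smul a x h hx =>
    clear h
    obtain ⟨l, rfl⟩ := hx
    refine ⟨l.map fun t => (a * t.1, t.2), ?_⟩
    induction l with
    | nil => simp
    | cons t l ih => rw [List.map_cons, mol_cons, mol_cons, ih, smul_add, smul_smul]

variable [MetricSpace K]

/-- The `p`-th power `‖μ‖^p` of the `p`-norm of the Lipschitz free `p`-space: the infimum of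
`∑ |a_i|^p d(x_i,y_i)^p` over all representations `μ = ∑ a_i (δ(x_i) - δ(y_i))`. -/
noncomputable def freeNormPow (p : ℝ) (base : K) (μ : K →₀ ℝ) : ℝ :=
  sInf {c : ℝ | ∃ l : List (ℝ × K × K), comb base l = μ ∧ c = cost p l}

lemma freeNormPow_nonneg (p : ℝ) (base : K) (μ : K →₀ ℝ) : 0 ≤ freeNormPow p base μ := by
  apply Real.sInf_nonneg
  rintro c ⟨l, -, rfl⟩
  exact cost_nonneg p l

lemma freeNormPow_le {p : ℝ} {base : K} {μ : K →₀ ℝ} {c : ℝ} (h : Bd p Set.univ μ c) :
    freeNormPow p base μ ≤ c := by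
  obtain ⟨l, -, hm, hc⟩ := h
  refine le_trans (csInf_le ⟨0, ?_⟩ ⟨l, ?_, rfl⟩) hc
  · rintro c ⟨l, -, rfl⟩
    exact cost_nonneg p l
  · rw [comb_eq_mol, hm]

lemma bd_of_freeNormPow_lt {p : ℝ} {base : K} {μ : K →₀ ℝ} {c : ℝ}
    (hμ : μ ∈ Submodule.span ℝ (Set.range (delta base)))
    (h : freeNormPow p base μ < c) : Bd p Set.univ μ c := by
  obtain ⟨l₀, hl₀⟩ := exists_mol base hμ
  obtain ⟨c', ⟨l, hl, rfl⟩, hlt⟩ := exists_lt_of_csInf_lt
    (⟨cost p l₀, l₀, by rw [comb_eq_mol, hl₀], rfl⟩ :
      {c : ℝ | ∃ l : List (ℝ × K × K), comb base l = μ ∧ c = cost p l}.Nonempty) h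
  exact ⟨l, by simp, by rw [← comb_eq_mol base, hl], hlt.le⟩

lemma freeNormPow_zero (p : ℝ) (base : K) : freeNormPow p base (0 : K →₀ ℝ) = 0 :=
  le_antisymm (freeNormPow_le (Bd.zero _ _ le_rfl)) (freeNormPow_nonneg _ _ _)

lemma freeNormPow_add_le {p : ℝ} {base : K} {μ ν : K →₀ ℝ}
    (hμ : μ ∈ Submodule.span ℝ (Set.range (delta base)))
    (hν : ν ∈ Submodule.span ℝ (Set.range (delta base))) :
    freeNormPow p base (μ + ν) ≤ freeNormPow p base μ + freeNormPow p base ν := by
  refine le_of_forall_pos_le_add fun ε hε => ?_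
  have h1 := bd_of_freeNormPow_lt hμ (lt_add_of_pos_right (freeNormPow p base μ) (half_pos hε))
  have h2 := bd_of_freeNormPow_lt hν (lt_add_of_pos_right (freeNormPow p base ν) (half_pos hε))
  refine (freeNormPow_le (h1.add h2)).trans ?_
  linarith

lemma freeNormPow_smul_le {p : ℝ} {base : K} {μ : K →₀ ℝ} (a : ℝ)
    (hμ : μ ∈ Submodule.span ℝ (Set.range (delta base))) :
    freeNormPow p base (a • μ) ≤ |a| ^ p * freeNormPow p base μ := by
  refine le_of_forall_pos_le_add fun ε hε => ?_
  have hpos : 0 ≤ |a| ^ p := by positivity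
  have h1 := bd_of_freeNormPow_lt hμ
    (lt_add_of_pos_right (freeNormPow p base μ) (show 0 < ε / (|a| ^ p + 1) by positivity))
  refine (freeNormPow_le (h1.smul a)).trans ?_
  have h2 : |a| ^ p * (ε / (|a| ^ p + 1)) ≤ ε := by
    rw [mul_div_assoc']
    rw [div_le_iff₀ (by positivity)]
    nlinarith
  linarith

lemma freeNormPow_neg {p : ℝ} {base : K} (μ : K →₀ ℝ) :
    freeNormPow p base (-μ) = freeNormPow p base μ := by
  have key : ∀ ν : K →₀ ℝ, {c : ℝ | ∃ l : List (ℝ × K × K), comb base l = ν ∧ c = cost p l} ⊆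
      {c : ℝ | ∃ l : List (ℝ × K × K), comb base l = -ν ∧ c = cost p l} := by
    rintro ν c ⟨l, hl, rfl⟩
    refine ⟨l.map fun t => (-t.1, t.2), ?_, ?_⟩
    · rw [← hl]
      clear hl
      induction l with
      | nil => simp [comb]
      | cons t l ih =>
        simp only [comb, List.map_cons, List.sum_cons, neg_add] at ih ⊢
        rw [ih]
        simp
    · clear hl
      induction l with
      | nil => simp
      | cons t l ih => rw [List.map_cons, cost_cons, cost_cons, ← ih]; simp
  unfold freeNormPow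
  congr 1
  refine Set.Subset.antisymm ?_ (key μ)
  have := key (-μ)
  rwa [neg_neg] at this

/-- The function `‖·‖^p` as a seminorm of the additive group underlying the span of the
`δ(x)`. -/
noncomputable def freeSeminorm (p : ℝ) (base : K) : AddGroupSeminorm (PreFree p base) where
  toFun μ := freeNormPow p base (PreFree.incl p base μ)
  map_zero' := by rw [map_zero]; exact freeNormPow_zero p base
  add_le' μ ν := by
    rw [map_add]
    exact freeNormPow_add_le μ.2 ν.2
  neg' μ := by
    rw [map_neg]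
    exact freeNormPow_neg _

/-- The span of the `δ(x)` with the translation invariant metric `‖μ - ν‖^p`, where `‖·‖` is the
`p`-norm of the Lipschitz free `p`-space. -/
noncomputable instance (p : ℝ) (base : K) : SeminormedAddCommGroup (PreFree p base) :=
  (freeSeminorm p base).toSeminormedAddCommGroup

lemma PreFree.norm_def {p : ℝ} {base : K} (μ : PreFree p base) :
    ‖μ‖ = freeNormPow p base (PreFree.incl p base μ) := rfl

lemma PreFree.norm_smul_le {p : ℝ} {base : K} (a : ℝ) (μ : PreFree p base) :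
    ‖a • μ‖ ≤ |a| ^ p * ‖μ‖ := by
  rw [PreFree.norm_def, PreFree.norm_def, map_smul]
  exact freeNormPow_smul_le a μ.2

instance (p : ℝ) (base : K) : UniformContinuousConstSMul ℝ (PreFree p base) where
  uniformContinuous_const_smul a := by
    have : LipschitzWith (Real.toNNReal (|a| ^ p)) (fun μ : PreFree p base => a • μ) := by
      refine LipschitzWith.of_dist_le_mul fun μ ν => ?_
      rw [dist_eq_norm, dist_eq_norm, ← smul_sub, Real.coe_toNNReal _ (by positivity)]
      exact PreFree.norm_smul_le a _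
    exact this.uniformContinuous

/-- The Lipschitz free `p`-space `𝓕_p(K)` of the metric space `K` with base point `base`: the
completion of the span of the vectors `δ(x)` for the `p`-norm
`‖μ‖ = inf (∑ |a_i|^p d(x_i,y_i)^p)^(1/p)`. Its norm in the sense of Mathlib is `‖·‖^p`. -/
abbrev FreeP (p : ℝ) (base : K) : Type u := UniformSpace.Completion (PreFree p base)

end FreeSpace

/-! ## The metric approximation property of `p`-Banach spaces -/

section MAP

/-- The `p`-norm of a `p`-normed space `X`, where the norm in the sense of Mathlib, which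
defines the metric of `X`, is the `p`-th power of the `p`-norm. -/
noncomputable def pnorm (p : ℝ) {X : Type u} [NormedAddCommGroup X] (x : X) : ℝ :=
  ‖x‖ ^ (1 / p)

/-- The metric approximation property: for every compact set `C` and every `ε > 0` there is a
finite rank linear operator `T` with `‖T‖ ≤ 1` and `‖T x - x‖ ≤ ε` for all `x ∈ C`. -/
def HasMAP' (p : ℝ) (X : Type u) [NormedAddCommGroup X] [Module ℝ X] : Prop :=
  ∀ C : Set X, IsCompact C → ∀ ε : ℝ, 0 < ε → ∃ T : X →ₗ[ℝ] X,
    FiniteDimensional ℝ (LinearMap.range T) ∧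
    (∀ x : X, pnorm p (T x) ≤ pnorm p x) ∧
    (∀ x ∈ C, pnorm p (T x - x) ≤ ε)

end MAP

/-! ## Conclusion -/

section Conclusion

variable {K : Type u} [MetricSpace K]

open UniformSpace

/-- The `p`-norm on the span of the `δ(x)` is given by the formula
`‖μ‖ = inf (∑ |a_i|^p d(x_i,y_i)^p)^(1/p)`. -/
theorem pnorm_coe {p : ℝ} (hp : 0 < p) {base : K} (μ : PreFree p base) :
    pnorm p (μ : FreeP p base) = sInf {c : ℝ | ∃ l : List (ℝ × K × K),
      comb base l = PreFree.incl p base μ ∧ c = (cost p l) ^ (1 / p)} := by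
  have hnn : 0 ≤ freeNormPow p base (PreFree.incl p base μ) := freeNormPow_nonneg _ _ _
  unfold pnorm
  rw [Completion.norm_coe, PreFree.norm_def]
  apply le_antisymm
  · apply le_csInf
    · obtain ⟨l₀, hl₀⟩ := exists_mol base μ.2
      exact ⟨_, l₀, by rw [comb_eq_mol, hl₀]; rfl, rfl⟩
    · rintro c ⟨l, hl, rfl⟩
      refine Real.rpow_le_rpow hnn ?_ (by positivity)
      refine freeNormPow_le ⟨l, by simp, by rw [← comb_eq_mol base, hl], le_rfl⟩
  · refine le_of_forall_pos_le_add fun ε hε => ?_
    set N := freeNormPow p base (PreFree.incl p base μ) with hN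
    have h1 : N < (N ^ (1 / p) + ε) ^ p := by
      have h2 : (N ^ (1 / p)) ^ p = N := by
        rw [← Real.rpow_mul hnn, one_div, inv_mul_cancel₀ hp.ne', Real.rpow_one]
      conv_lhs => rw [← h2]
      exact Real.rpow_lt_rpow (by positivity) (by linarith) hp
    obtain ⟨l, -, hm, hc⟩ := bd_of_freeNormPow_lt (p := p) (base := base) μ.2 h1
    refine le_trans (csInf_le ⟨0, ?_⟩ ⟨l, ?_, rfl⟩) ?_
    · rintro c ⟨l, -, rfl⟩
      exact Real.rpow_nonneg (cost_nonneg p l) _
    · rw [comb_eq_mol, hm]; rfl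
    · have h3 : (cost p l) ^ (1 / p) ≤ ((N ^ (1 / p) + ε) ^ p) ^ (1 / p) :=
        Real.rpow_le_rpow (cost_nonneg p l) hc (by positivity)
      rw [← Real.rpow_mul (by positivity), one_div, mul_inv_cancel₀ hp.ne', Real.rpow_one] at h3
      rw [one_div]
      exact h3

lemma FreeP.norm_smul_le {p : ℝ} {base : K} (a : ℝ) (x : FreeP p base) :
    ‖a • x‖ ≤ |a| ^ p * ‖x‖ := by
  induction x using Completion.induction_on with
  | hp =>
    exact isClosed_le (continuous_norm.comp (continuous_const_smul a))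
      (continuous_const.mul continuous_norm)
  | ih μ =>
    rw [← Completion.coe_smul, Completion.norm_coe, Completion.norm_coe]
    exact PreFree.norm_smul_le a μ

/-- `𝓕_p(K)` is a `p`-normed space. -/
theorem FreeP.norm_smul {p : ℝ} (hp : 0 < p) {base : K} (a : ℝ) (x : FreeP p base) :
    ‖a • x‖ = |a| ^ p * ‖x‖ := by
  apply le_antisymm (FreeP.norm_smul_le a x)
  rcases eq_or_ne a 0 with rfl | ha
  · rw [abs_zero, Real.zero_rpow hp.ne', zero_mul]
    exact norm_nonneg _
  · have h1 := FreeP.norm_smul_le a⁻¹ (a • x)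
    rw [smul_smul, inv_mul_cancel₀ ha, one_smul, abs_inv, Real.inv_rpow (abs_nonneg _)] at h1
    have h2 : 0 < |a| ^ p := Real.rpow_pos_of_pos (abs_pos.2 ha) p
    calc |a| ^ p * ‖x‖ ≤ |a| ^ p * ((|a| ^ p)⁻¹ * ‖a • x‖) := by gcongr
      _ = ‖a • x‖ := by field_simp

lemma FreeP.continuousSMul {p : ℝ} (hp : 0 < p) (base : K) :
    ContinuousSMul ℝ (FreeP p base) := by
  have hzero : Filter.Tendsto (fun a : ℝ => |a| ^ p) (nhds 0) (nhds 0) := by
    have : ContinuousAt (fun a : ℝ => |a| ^ p) 0 :=
      (continuous_abs.continuousAt).rpow_const (Or.inr hp.le)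
    have h := this.tendsto
    simpa [Real.zero_rpow hp.ne'] using h
  refine ContinuousSMul.of_nhds_zero ?_ ?_ ?_
  · rw [tendsto_zero_iff_norm_tendsto_zero]
    have h1 : Filter.Tendsto (fun q : ℝ × FreeP p base => |q.1| ^ p * ‖q.2‖)
        (nhds 0 ×ˢ nhds 0) (nhds (0 * 0)) := by
      refine Filter.Tendsto.mul ?_ ?_
      · exact hzero.comp Filter.tendsto_fst
      · have : Filter.Tendsto (fun x : FreeP p base => ‖x‖) (nhds 0) (nhds 0) := by
          simpa using (continuous_norm (E := FreeP p base)).tendsto 0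
        exact this.comp Filter.tendsto_snd
    rw [mul_zero] at h1
    exact squeeze_zero (fun _ => norm_nonneg _) (fun q => FreeP.norm_smul_le q.1 q.2) h1
  · intro m
    rw [tendsto_zero_iff_norm_tendsto_zero]
    have h1 : Filter.Tendsto (fun a : ℝ => |a| ^ p * ‖m‖) (nhds 0) (nhds (0 * ‖m‖)) :=
      hzero.mul_const _
    rw [zero_mul] at h1
    exact squeeze_zero (fun _ => norm_nonneg _) (fun a => FreeP.norm_smul_le a m) h1
  · intro a
    have : Continuous (fun m : FreeP p base => a • m) := continuous_const_smul a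
    have h := this.tendsto 0
    rwa [smul_zero] at h

/-- The linear operator on `PreFree` induced by `f`. -/
noncomputable def preOp (p : ℝ) (base : K) (f : K → K →₀ ℝ)
    (hf : ∀ x y, ∃ c, Bd p Set.univ (f x - f y) c) : PreFree p base →ₗ[ℝ] PreFree p base :=
  LinearMap.restrict (p := Submodule.span ℝ (Set.range (delta base)))
    (q := Submodule.span ℝ (Set.range (delta base))) (ext f) (by
    intro μ hμ
    obtain ⟨l, rfl⟩ := exists_mol base hμ
    induction l with
    | nil => rw [mol_nil, map_zero]; exact Submodule.zero_mem _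
    | cons t l ih =>
      rw [mol_cons, map_add, map_smul, map_sub, ext_single, ext_single, one_smul, one_smul]
      refine Submodule.add_mem _ (Submodule.smul_mem _ _ ?_) (ih (mol_mem_span base l))
      obtain ⟨c, l', -, hm, -⟩ := hf t.2.1 t.2.2
      rw [← hm]
      exact mol_mem_span base l')

/-- Extension of a bounded operator on `PreFree` to the completion. -/
noncomputable def complOp {p : ℝ} {base : K} (T₀ : PreFree p base →ₗ[ℝ] PreFree p base) (L : ℝ)
    (hT : ∀ μ, ‖T₀ μ‖ ≤ L * ‖μ‖) : FreeP p base →ₗ[ℝ] FreeP p base where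
  toFun := (T₀.toAddMonoidHom.mkNormedAddGroupHom L hT).completion
  map_add' x y := map_add _ x y
  map_smul' a x := by
    simp only [RingHom.id_apply]
    induction x using Completion.induction_on with
    | hp =>
      refine isClosed_eq ?_ ?_
      · exact (NormedAddGroupHom.continuous _).comp (continuous_const_smul a)
      · exact (continuous_const_smul a).comp (NormedAddGroupHom.continuous _)
    | ih μ =>
      rw [← Completion.coe_smul, NormedAddGroupHom.completion_coe,
        NormedAddGroupHom.completion_coe, ← Completion.coe_smul]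
      congr 1
      exact T₀.map_smul a μ

lemma complOp_coe {p : ℝ} {base : K} (T₀ : PreFree p base →ₗ[ℝ] PreFree p base) (L : ℝ)
    (hT : ∀ μ, ‖T₀ μ‖ ≤ L * ‖μ‖) (μ : PreFree p base) :
    complOp T₀ L hT (μ : FreeP p base) = ((T₀ μ : PreFree p base) : FreeP p base) :=
  NormedAddGroupHom.completion_coe _ μ

lemma complOp_continuous {p : ℝ} {base : K} (T₀ : PreFree p base →ₗ[ℝ] PreFree p base) (L : ℝ)
    (hT : ∀ μ, ‖T₀ μ‖ ≤ L * ‖μ‖) : Continuous (complOp T₀ L hT) :=
  NormedAddGroupHom.continuous (T₀.toAddMonoidHom.mkNormedAddGroupHom L hT).completion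

lemma complOp_norm_le {p : ℝ} {base : K} (T₀ : PreFree p base →ₗ[ℝ] PreFree p base) (L : ℝ)
    (hT : ∀ μ, ‖T₀ μ‖ ≤ L * ‖μ‖) (x : FreeP p base) : ‖complOp T₀ L hT x‖ ≤ L * ‖x‖ := by
  induction x using Completion.induction_on with
  | hp =>
    exact isClosed_le (continuous_norm.comp (complOp_continuous T₀ L hT))
      (continuous_const.mul continuous_norm)
  | ih μ =>
    rw [complOp_coe, Completion.norm_coe, Completion.norm_coe]
    exact hT μ

/-- The canonical map into the completion, as a linear map. -/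
noncomputable def coeLin (p : ℝ) (base : K) : PreFree p base →ₗ[ℝ] FreeP p base where
  toFun μ := (μ : FreeP p base)
  map_add' x y := Completion.coe_add x y
  map_smul' a x := Completion.coe_smul a x

omit [MetricSpace K] in
lemma incl_injective (p : ℝ) (base : K) : Function.Injective (PreFree.incl p base) :=
  Subtype.val_injective

lemma complOp_finite {p : ℝ} (hp : 0 < p) {base : K}
    (T₀ : PreFree p base →ₗ[ℝ] PreFree p base) (L : ℝ)
    (hT : ∀ μ, ‖T₀ μ‖ ≤ L * ‖μ‖) (F : Finset K)
    (hF : ∀ μ : PreFree p base, (PreFree.incl p base (T₀ μ)).support ⊆ F) :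
    FiniteDimensional ℝ (LinearMap.range (complOp T₀ L hT)) := by
  have := FreeP.continuousSMul hp base
  have h1 : LinearMap.range ((PreFree.incl p base).comp T₀) ≤ Finsupp.supported ℝ ℝ (F : Set K) := by
    rintro _ ⟨μ, rfl⟩
    rw [Finsupp.mem_supported]
    exact_mod_cast hF μ
  have h2 : FiniteDimensional ℝ (Finsupp.supported ℝ ℝ (F : Set K)) :=
    Module.Finite.equiv (Finsupp.supportedEquivFinsupp (M := ℝ) (R := ℝ) (F : Set K)).symm
  have h3 : FiniteDimensional ℝ (LinearMap.range ((PreFree.incl p base).comp T₀)) :=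
    Submodule.finiteDimensional_of_le h1
  have h4 : FiniteDimensional ℝ (LinearMap.range T₀) := by
    rw [LinearMap.range_comp] at h3
    have e := Submodule.equivMapOfInjective (PreFree.incl p base) (incl_injective p base)
      (LinearMap.range T₀)
    exact Module.Finite.equiv e.symm
  set W : Submodule ℝ (FreeP p base) := (LinearMap.range T₀).map (coeLin p base) with hW
  have h5 : FiniteDimensional ℝ W := inferInstance
  have h6 : IsClosed (W : Set (FreeP p base)) := Submodule.closed_of_finiteDimensional W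
  have h7 : LinearMap.range (complOp T₀ L hT) ≤ W := by
    rintro _ ⟨x, rfl⟩
    induction x using Completion.induction_on with
    | hp => exact h6.preimage (complOp_continuous T₀ L hT)
    | ih μ =>
      rw [complOp_coe]
      exact Submodule.mem_map.2 ⟨T₀ μ, ⟨μ, rfl⟩, rfl⟩
  exact Submodule.finiteDimensional_of_le h7

lemma Bd.sum {p : ℝ} {A : Set K} {ι : Type*} (s : Finset ι) (g : ι → K →₀ ℝ) (c : ι → ℝ)
    (h : ∀ i ∈ s, Bd p A (g i) (c i)) : Bd p A (∑ i ∈ s, g i) (∑ i ∈ s, c i) := by
  classical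
  induction s using Finset.induction_on with
  | empty => simpa using Bd.zero p A (le_refl (0 : ℝ))
  | insert i s his ih =>
    rw [Finset.sum_insert his, Finset.sum_insert his]
    exact (h i (Finset.mem_insert_self i s)).add
      (ih fun j hj => h j (Finset.mem_insert_of_mem hj))

lemma preOp_norm_le {p : ℝ} {base : K} {f : K → K →₀ ℝ} {L : ℝ} (hL : 0 < L)
    (hf : ∀ x y, Bd p Set.univ (f x - f y) (L * dist x y ^ p)) (μ : PreFree p base) :
    ‖preOp p base f (fun x y => ⟨_, hf x y⟩) μ‖ ≤ L * ‖μ‖ := by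
  refine le_of_forall_pos_le_add fun ε hε => ?_
  have h1 : freeNormPow p base (PreFree.incl p base μ) < ‖μ‖ + ε / L := by
    rw [PreFree.norm_def]
    have : 0 < ε / L := div_pos hε hL
    linarith
  have h2 := bd_of_freeNormPow_lt (p := p) (base := base) μ.2 h1
  have h3 : Bd p Set.univ (ext f (PreFree.incl p base μ)) (L * (‖μ‖ + ε / L)) :=
    Bd.ext (fun x _ y _ => hf x y) hL.le h2
  have h4 := freeNormPow_le (base := base) h3
  have h5 : L * (‖μ‖ + ε / L) = L * ‖μ‖ + ε := by field_simp
  rw [h5] at h4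
  exact h4

lemma preOp_close {p : ℝ} {base : K} {f : K → K →₀ ℝ}
    (hf : ∀ x y, ∃ c, Bd p Set.univ (f x - f y) c) {τ : ℝ} (μ : PreFree p base)
    (hc : ∀ x ∈ (PreFree.incl p base μ).support, Bd p Set.univ (f x - Finsupp.single x 1) τ) :
    ‖preOp p base f hf μ - μ‖ ≤ ∑ x ∈ (PreFree.incl p base μ).support,
      |PreFree.incl p base μ x| ^ p * τ := by
  set ν := PreFree.incl p base μ with hν
  have h1 : ext f ν - ν = ∑ x ∈ ν.support, ν x • (f x - Finsupp.single x 1) := by
    have e1 : ext f ν = ∑ x ∈ ν.support, ν x • f x := by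
      simp [ext, Finsupp.linearCombination_apply, Finsupp.sum]
    have e2 : ν = ∑ x ∈ ν.support, ν x • Finsupp.single x (1 : ℝ) := by
      conv_lhs => rw [← Finsupp.sum_single ν]
      simp [Finsupp.sum]
    simp only [smul_sub, Finset.sum_sub_distrib]
    rw [← e2, ← e1]
  have h2 : Bd p Set.univ (ext f ν - ν) (∑ x ∈ ν.support, |ν x| ^ p * τ) := by
    rw [h1]
    exact Bd.sum _ _ _ fun x hx => (hc x hx).smul (ν x)
  exact freeNormPow_le (base := base) h2

lemma exists_scale {p : ℝ} (hp : 0 < p) (R : ℝ) {e : ℝ} (he : 0 < e) :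
    ∃ L : ℝ, 1 < L ∧ L ≤ 2 ∧ |L ^ (-(1 / p)) - 1| ^ p * R ≤ e := by
  have hc : ContinuousAt (fun L : ℝ => |L ^ (-(1 / p)) - 1| ^ p * R) 1 := by
    refine ContinuousAt.mul ?_ continuousAt_const
    refine ContinuousAt.rpow_const ?_ (Or.inr hp.le)
    refine ContinuousAt.abs ?_
    exact (Real.continuousAt_rpow_const 1 _ (Or.inl one_ne_zero)).sub continuousAt_const
  have h1 : ∀ᶠ L in nhds (1 : ℝ), (fun L : ℝ => |L ^ (-(1 / p)) - 1| ^ p * R) L < e := by
    refine hc.eventually_lt continuousAt_const ?_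
    simpa [Real.zero_rpow hp.ne'] using he
  obtain ⟨δ, hδ, hball⟩ := Metric.eventually_nhds_iff.1 h1
  refine ⟨1 + min (δ / 2) 1, ?_, ?_, ?_⟩
  · have : 0 < min (δ / 2) 1 := lt_min (by linarith) one_pos
    linarith
  · have := min_le_right (δ / 2) 1
    linarith
  · refine (hball ?_).le
    rw [Real.dist_eq]
    have h3 : 0 < min (δ / 2) 1 := lt_min (by linarith) one_pos
    have h4 := min_le_left (δ / 2) 1
    rw [add_sub_cancel_left, abs_of_pos h3]
    linarith

/-- **Theorem.** For every `p ∈ (0,1]` and every countable proper metric space `K` the Lipschitz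
free `p`-space `𝓕_p(K)` has the metric approximation property. -/
theorem hasMAP_freeP (p : ℝ) (hp0 : 0 < p) (hp1 : p ≤ 1) (K : Type u) [MetricSpace K]
    [ProperSpace K] [Countable K] (base : K) : HasMAP' p (FreeP p base) := by
  classical
  intro C hC ε hε
  set e := ε ^ p / 8 with he
  have hεp : 0 < ε ^ p := Real.rpow_pos_of_pos hε p
  have hepos : 0 < e := by positivity
  -- bound on C
  obtain ⟨R, hR⟩ : ∃ R : ℝ, ∀ x ∈ C, ‖x‖ ≤ R := hC.isBounded.exists_norm_le
  obtain ⟨L, hL1, hL2, hLR⟩ := exists_scale hp0 R hepos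
  have hL0 : 0 < L := by linarith
  -- approximation of C by finitely supported elements
  obtain ⟨t, -, htfin, hcov⟩ := hC.finite_cover_balls hepos
  have hdense : ∀ x : FreeP p base, ∃ μ : PreFree p base, ‖x - (μ : FreeP p base)‖ < e := by
    intro x
    obtain ⟨y, hy, ⟨μ, rfl⟩⟩ := Metric.dense_iff.1
      (Completion.denseRange_coe (α := PreFree p base)) x e hepos
    refine ⟨μ, ?_⟩
    rw [Metric.mem_ball, dist_comm, dist_eq_norm] at hy
    exact hy
  choose μ hμ using hdense
  set tf : Finset (FreeP p base) := htfin.toFinset with htf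
  set S : Finset K := tf.biUnion fun x => (PreFree.incl p base (μ x)).support with hS
  set M : ℝ := ∑ x ∈ tf, ∑ z ∈ (PreFree.incl p base (μ x)).support,
    |PreFree.incl p base (μ x) z| ^ p with hM
  have hM0 : 0 ≤ M := Finset.sum_nonneg fun _ _ => Finset.sum_nonneg fun _ _ => by positivity
  set τ := e / (M + 1) with hτ
  have hτ0 : 0 < τ := by positivity
  obtain ⟨F, f, hfs, hfL, hfc⟩ := approx_of_proper hp0 hp1 base hL1 hτ0 S
  set T₀ : PreFree p base →ₗ[ℝ] PreFree p base :=
    preOp p base f (fun x y => ⟨_, hfL x y⟩) with hT₀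
  have hT₀L : ∀ ν, ‖T₀ ν‖ ≤ L * ‖ν‖ := fun ν => preOp_norm_le hL0 hfL ν
  set T := complOp T₀ L hT₀L with hT
  have hTfin : FiniteDimensional ℝ (LinearMap.range T) := by
    refine complOp_finite hp0 T₀ L hT₀L F fun ν => ?_
    have e1 : PreFree.incl p base (T₀ ν) = ext f (PreFree.incl p base ν) := rfl
    rw [e1, ext, Finsupp.linearCombination_apply]
    intro z hz
    by_contra hzF
    have : ((PreFree.incl p base ν).sum fun i a => a • f i) z = 0 := by
      rw [Finsupp.sum, Finsupp.finsetSum_apply]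
      refine Finset.sum_eq_zero fun i _ => ?_
      rw [Finsupp.smul_apply]
      have : f i z = 0 := by
        by_contra hne
        exact hzF (hfs i (Finsupp.mem_support_iff.2 hne))
      rw [this, smul_zero]
    exact (Finsupp.mem_support_iff.1 hz) this
  -- the estimate on C
  have hTclose : ∀ x ∈ C, ‖T x - x‖ ≤ 7 * e := by
    intro x hx
    obtain ⟨y, hyt, hxy⟩ := Set.mem_iUnion₂.1 (hcov hx)
    rw [Metric.mem_ball, dist_eq_norm] at hxy
    have hytf : y ∈ tf := htfin.mem_toFinset.2 hyt
    have h1 : ‖x - (μ y : FreeP p base)‖ ≤ 2 * e := by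
      calc ‖x - (μ y : FreeP p base)‖ = ‖(x - y) + (y - (μ y : FreeP p base))‖ := by
            congr 1; abel
        _ ≤ ‖x - y‖ + ‖y - (μ y : FreeP p base)‖ := norm_add_le _ _
        _ ≤ 2 * e := by linarith [hμ y]
    have h2 : ‖T (μ y : FreeP p base) - (μ y : FreeP p base)‖ ≤ e := by
      rw [hT, complOp_coe, ← Completion.coe_sub, Completion.norm_coe]
      refine (preOp_close (τ := τ) _ (μ y) ?_).trans ?_
      · intro z hz
        exact hfc z (Finset.mem_biUnion.2 ⟨y, hytf, hz⟩)
      · rw [← Finset.sum_mul]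
        have h3 : ∑ z ∈ (PreFree.incl p base (μ y)).support,
            |PreFree.incl p base (μ y) z| ^ p ≤ M := by
          rw [hM]
          exact Finset.single_le_sum (f := fun x => ∑ z ∈ (PreFree.incl p base (μ x)).support,
            |PreFree.incl p base (μ x) z| ^ p)
            (fun _ _ => Finset.sum_nonneg fun _ _ => by positivity) hytf
        calc (∑ z ∈ (PreFree.incl p base (μ y)).support,
            |PreFree.incl p base (μ y) z| ^ p) * τ ≤ M * τ := by gcongr
          _ ≤ (M + 1) * τ := by gcongr; linarith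
          _ = e := by rw [hτ]; field_simp
    calc ‖T x - x‖ = ‖T (x - (μ y : FreeP p base)) +
          ((T (μ y : FreeP p base) - (μ y : FreeP p base)) + ((μ y : FreeP p base) - x))‖ := by
          rw [map_sub]; congr 1; abel
      _ ≤ ‖T (x - (μ y : FreeP p base))‖ +
          (‖T (μ y : FreeP p base) - (μ y : FreeP p base)‖ + ‖(μ y : FreeP p base) - x‖) :=
          (norm_add_le _ _).trans (by gcongr; exact norm_add_le _ _)
      _ ≤ L * ‖x - (μ y : FreeP p base)‖ + (e + ‖x - (μ y : FreeP p base)‖) := by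
          rw [norm_sub_rev (μ y : FreeP p base) x]
          gcongr
          exact complOp_norm_le T₀ L hT₀L _
      _ ≤ 2 * (2 * e) + (e + 2 * e) := by gcongr
      _ = 7 * e := by ring
  -- rescale
  set a : ℝ := L ^ (-(1 / p)) with ha
  have ha0 : 0 < a := Real.rpow_pos_of_pos hL0 _
  have hap : a ^ p = L⁻¹ := by
    rw [ha, ← Real.rpow_mul hL0.le]
    have : -(1 / p) * p = -1 := by field_simp
    rw [this, Real.rpow_neg_one]
  refine ⟨a • T, ?_, ?_, ?_⟩
  · have : LinearMap.range (a • T) = LinearMap.range T := LinearMap.range_smul T a ha0.ne'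
    rw [this]
    exact hTfin
  · intro x
    unfold pnorm
    refine Real.rpow_le_rpow (norm_nonneg _) ?_ (by positivity)
    rw [LinearMap.smul_apply]
    calc ‖a • T x‖ ≤ |a| ^ p * ‖T x‖ := FreeP.norm_smul_le a (T x)
      _ ≤ |a| ^ p * (L * ‖x‖) := by gcongr; exact complOp_norm_le T₀ L hT₀L x
      _ = ‖x‖ := by rw [abs_of_pos ha0, hap]; field_simp
  · intro x hx
    have h1 : ‖(a • T) x - x‖ ≤ ε ^ p := by
      have e1 : (a • T) x - x = a • (T x - x) + (a - 1) • x := by
        rw [LinearMap.smul_apply, smul_sub, sub_smul, one_smul]; abel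
      rw [e1]
      have h2 : ‖a • (T x - x)‖ ≤ 7 * e := by
        calc ‖a • (T x - x)‖ ≤ |a| ^ p * ‖T x - x‖ := FreeP.norm_smul_le a _
          _ ≤ 1 * (7 * e) := by
            gcongr
            · rw [abs_of_pos ha0, hap]
              exact inv_le_one_of_one_le₀ hL1.le
            · exact hTclose x hx
          _ = 7 * e := one_mul _
      have h3 : ‖(a - 1) • x‖ ≤ e := by
        calc ‖(a - 1) • x‖ ≤ |a - 1| ^ p * ‖x‖ := FreeP.norm_smul_le _ x
          _ ≤ |a - 1| ^ p * R := by gcongr; exact hR x hx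
          _ ≤ e := hLR
      calc ‖a • (T x - x) + (a - 1) • x‖ ≤ 7 * e + e := (norm_add_le _ _).trans (add_le_add h2 h3)
        _ = ε ^ p := by rw [he]; ring
    unfold pnorm
    calc ‖(a • T) x - x‖ ^ (1 / p) ≤ (ε ^ p) ^ (1 / p) :=
          Real.rpow_le_rpow (norm_nonneg _) h1 (by positivity)
      _ = ε := by
          rw [← Real.rpow_mul hε.le, one_div, mul_inv_cancel₀ hp0.ne', Real.rpow_one]

end Conclusion

end Pool.Agent.MP557517
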