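import Pool.Agent.MP557517.Defs
import Pool.Agent.MP557517.FreeSpace

/-!
# The main theorem for the hand-in `MP_557517_an.CountableProperMAP`
-/

open Finset Set UniformSpace Filter

namespace Pool.Agent.MP557517

universe u v

/-! ## Lists and finite families -/

section Lists

variable {K : Type u}

lemma mol_ofFn (n : ℕ) (a : Fin n → ℝ) (x y : Fin n → K) :
    mol (List.ofFn fun i => (a i, x i, y i)) =
      ∑ i, a i • (Finsupp.single (x i) (1 : ℝ) - Finsupp.single (y i) (1 : ℝ)) := by
  rw [mol, List.map_ofFn, List.sum_ofFn]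
  rfl

lemma cost_ofFn [MetricSpace K] (p : ℝ) (n : ℕ) (a : Fin n → ℝ) (x y : Fin n → K) :
    cost p (List.ofFn fun i => (a i, x i, y i)) =
      ∑ i, |a i| ^ p * dist (x i) (y i) ^ p := by
  rw [cost, List.map_ofFn, List.sum_ofFn]
  rfl

lemma list_eq_ofFn (l : List (ℝ × K × K)) :
    l = List.ofFn fun i : Fin l.length => ((l.get i).1, (l.get i).2.1, (l.get i).2.2) := by
  conv_lhs => rw [← List.ofFn_get l]

lemma freeNorm_eq [MetricSpace K] {p : ℝ} (hp : 0 < p) {base : K} (μ : PreFree p base) :
    freeNorm p (PreFree.incl p base μ) = pnorm p (μ : FreeP p base) := by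
  rw [pnorm_coe hp, freeNorm]
  congr 1
  ext c
  constructor
  · rintro ⟨n, a, x, y, h1, h2⟩
    refine ⟨List.ofFn fun i => (a i, x i, y i), ?_, ?_⟩
    · rw [comb_eq_mol, mol_ofFn, h1]
    · rw [cost_ofFn, h2]
  · rintro ⟨l, h1, h2⟩
    refine ⟨l.length, fun i => (l.get i).1, fun i => (l.get i).2.1, fun i => (l.get i).2.2,
      ?_, ?_⟩
    · rw [← mol_ofFn, ← list_eq_ofFn, ← comb_eq_mol base, h1]
    · rw [← cost_ofFn, ← list_eq_ofFn, h2]

end Lists

/-! ## The concrete model -/

section Model

variable {K : Type u} [MetricSpace K] {base : K} {p : ℝ}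

lemma pnorm_pow {X : Type u} [NormedAddCommGroup X] (hp : 0 < p) (x : X) :
    pnorm p x ^ p = ‖x‖ := by
  unfold pnorm
  rw [← Real.rpow_mul (norm_nonneg x), one_div, inv_mul_cancel₀ hp.ne', Real.rpow_one]

lemma pnorm_nonneg {X : Type u} [NormedAddCommGroup X] (x : X) : 0 ≤ pnorm p x :=
  Real.rpow_nonneg (norm_nonneg x) _

lemma norm_lt_of_pnorm_lt {X : Type u} [NormedAddCommGroup X] (hp : 0 < p) {x : X} {ε : ℝ}
    (h : pnorm p x < ε) : ‖x‖ < ε ^ p := by
  rw [← pnorm_pow hp x]
  exact Real.rpow_lt_rpow (pnorm_nonneg x) h hp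

lemma pnorm_lt_of_norm_lt {X : Type u} [NormedAddCommGroup X] (hp : 0 < p) {x : X} {ε : ℝ}
    (hε : 0 ≤ ε) (h : ‖x‖ < ε ^ p) : pnorm p x < ε := by
  rw [← pnorm_pow hp x] at h
  exact (Real.rpow_lt_rpow_iff (pnorm_nonneg x) hε hp).1 h

lemma isPBanach_freeP (hp : 0 < p) (base : K) :
    IsPBanach p (fun x : FreeP p base => pnorm p x) where
  nonneg x := pnorm_nonneg x
  eq_zero x hx := by
    have : ‖x‖ = 0 := by
      rw [← pnorm_pow hp x, hx, Real.zero_rpow hp.ne']
    exact norm_eq_zero.1 this
  smul a x := by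
    unfold pnorm
    rw [FreeP.norm_smul hp, Real.mul_rpow (by positivity) (norm_nonneg x),
      ← Real.rpow_mul (abs_nonneg a), one_div, mul_inv_cancel₀ hp.ne', Real.rpow_one]
  add_le x y := by
    rw [pnorm_pow hp, pnorm_pow hp, pnorm_pow hp]
    exact norm_add_le x y
  complete u hu := by
    have hc : CauchySeq u := by
      rw [Metric.cauchySeq_iff]
      intro ε hε
      obtain ⟨n₀, h⟩ := hu (ε ^ (1 / p)) (Real.rpow_pos_of_pos hε _)
      refine ⟨n₀, fun m hm n hn => ?_⟩
      have h1 := norm_lt_of_pnorm_lt hp (h m hm n hn)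
      rw [← Real.rpow_mul hε.le, one_div, inv_mul_cancel₀ hp.ne', Real.rpow_one] at h1
      rw [dist_eq_norm]
      exact h1
    obtain ⟨x, hx⟩ := cauchySeq_tendsto_of_complete hc
    refine ⟨x, fun ε hε => ?_⟩
    obtain ⟨n₀, h⟩ := Metric.tendsto_atTop.1 hx (ε ^ p) (Real.rpow_pos_of_pos hε _)
    refine ⟨n₀, fun n hn => ?_⟩
    have h1 := h n hn
    rw [dist_eq_norm] at h1
    exact pnorm_lt_of_norm_lt hp hε.le h1

/-- `δ(x)` as an element of `PreFree`. -/
noncomputable def preDelta (p : ℝ) (base x : K) : PreFree p base :=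
  ⟨delta base x, Submodule.subset_span ⟨x, rfl⟩⟩

omit [MetricSpace K] in
lemma incl_preDelta (p : ℝ) (base x : K) :
    PreFree.incl p base (preDelta p base x) = delta base x := rfl

/-- `δ(x)` as an element of `FreeP`. -/
noncomputable def freeDelta (p : ℝ) (base x : K) : FreeP p base :=
  ((preDelta p base x : PreFree p base) : FreeP p base)

lemma freeDelta_eq (p : ℝ) (base x : K) :
    freeDelta p base x = coeLin p base (preDelta p base x) := rfl

omit [MetricSpace K] in
lemma incl_sum (n : ℕ) (a : Fin n → ℝ) (x y : Fin n → K) :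
    PreFree.incl p base (∑ i, a i • (preDelta p base (x i) - preDelta p base (y i))) =
      ∑ i, a i • (Finsupp.single (x i) (1 : ℝ) - Finsupp.single (y i) (1 : ℝ)) := by
  rw [map_sum]
  refine Finset.sum_congr rfl fun i _ => ?_
  rw [map_smul, map_sub, incl_preDelta, incl_preDelta, delta, delta]
  congr 1
  abel

/-- The identity map from the span of the `δ(x)` to `PreFree`. -/
noncomputable def toPre (p : ℝ) (base : K) :
    Submodule.span ℝ (Set.range (delta base)) →ₗ[ℝ] PreFree p base where
  toFun x := x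
  map_add' _ _ := rfl
  map_smul' _ _ := rfl

lemma coeLin_span (μ : PreFree p base) :
    coeLin p base μ ∈ Submodule.span ℝ (Set.range (freeDelta p base)) := by
  have h1 : (⊤ : Submodule ℝ (Submodule.span ℝ (Set.range (delta base)))) ≤
      Submodule.comap ((coeLin p base).comp (toPre p base))
        (Submodule.span ℝ (Set.range (freeDelta p base))) := by
    rw [← Submodule.span_span_coe_preimage, Submodule.span_le]
    rintro ⟨v, hv⟩ ⟨y, hy⟩
    have hy' : v = delta base y := hy.symm
    subst hy'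
    exact Submodule.subset_span ⟨y, rfl⟩
  exact h1 (Submodule.mem_top (x := μ))

/-- The concrete completion is a model of the Lipschitz free `p`-space. -/
theorem isLipschitzFree_freeP (hp : 0 < p) (base : K) :
    IsLipschitzFreePSpace p base (fun x : FreeP p base => pnorm p x) (freeDelta p base) where
  isPBanach := isPBanach_freeP hp base
  map_base := by
    have : preDelta p base base = 0 := by
      apply incl_injective p base
      rw [incl_preDelta, map_zero, delta, sub_self]
    rw [freeDelta_eq, this, map_zero]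
  dense x ε hε := by
    obtain ⟨y, hy, ⟨μ, rfl⟩⟩ := Metric.dense_iff.1
      (Completion.denseRange_coe (α := PreFree p base)) x (ε ^ p) (Real.rpow_pos_of_pos hε _)
    rw [Metric.mem_ball, dist_comm, dist_eq_norm] at hy
    exact ⟨_, coeLin_span μ, pnorm_lt_of_norm_lt hp hε.le hy⟩
  norm_eq n a x y := by
    rw [← incl_sum (p := p) (base := base) n a x y, freeNorm_eq hp]
    have : (∑ i, a i • (freeDelta p base (x i) - freeDelta p base (y i))) =
        coeLin p base (∑ i, a i • (preDelta p base (x i) - preDelta p base (y i))) := by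
      rw [map_sum]
      refine Finset.sum_congr rfl fun i _ => ?_
      rw [map_smul, map_sub]
      rfl
    rw [this]
    rfl

end Model

/-! ## Transfer to an arbitrary model -/

section Transfer

variable {p : ℝ} {X : Type v} [AddCommGroup X] [Module ℝ X] {N : X → ℝ}

lemma IsPBanach.zero (h : IsPBanach p N) : N 0 = 0 := by
  have := h.smul 0 0
  simpa using this

lemma IsPBanach.neg (h : IsPBanach p N) (x : X) : N (-x) = N x := by
  have := h.smul (-1) x
  simpa using this

/-- The metric structure of a `p`-Banach space: the norm in the sense of Mathlib is `N ^ p`. -/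
noncomputable abbrev IsPBanach.toNormed (h : IsPBanach p N) (hp : 0 < p) :
    NormedAddCommGroup X :=
  AddGroupNorm.toNormedAddCommGroup
    { toFun := fun x => N x ^ p
      map_zero' := by rw [h.zero, Real.zero_rpow hp.ne']
      add_le' := h.add_le
      neg' := fun x => by rw [h.neg]
      eq_zero_of_map_eq_zero' := fun x hx => by
        rw [Real.rpow_eq_zero (h.nonneg x) hp.ne'] at hx
        exact h.eq_zero x hx }

lemma IsPBanach.norm_def (h : IsPBanach p N) (hp : 0 < p) (x : X) :
    (h.toNormed hp).toNorm.norm x = N x ^ p := rfl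

lemma IsPBanach.completeSpace (h : IsPBanach p N) (hp : 0 < p) :
    @CompleteSpace X (h.toNormed hp).toUniformSpace := by
  let _ : NormedAddCommGroup X := h.toNormed hp
  have hnorm : ∀ x : X, ‖x‖ = N x ^ p := fun x => rfl
  refine Metric.complete_of_cauchySeq_tendsto fun u hu => ?_
  obtain ⟨x, hx⟩ := h.complete u (by
    intro ε hε
    obtain ⟨n₀, h0⟩ := Metric.cauchySeq_iff.1 hu (ε ^ p) (Real.rpow_pos_of_pos hε _)
    refine ⟨n₀, fun m hm n hn => ?_⟩
    have h1 := h0 m hm n hn
    rw [dist_eq_norm, hnorm] at h1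
    exact (Real.rpow_lt_rpow_iff (h.nonneg _) hε.le hp).1 h1)
  refine ⟨x, Metric.tendsto_atTop.2 fun ε hε => ?_⟩
  obtain ⟨n₀, h0⟩ := hx (ε ^ (1 / p)) (Real.rpow_pos_of_pos hε _)
  refine ⟨n₀, fun n hn => ?_⟩
  rw [dist_eq_norm, hnorm]
  have h1 := Real.rpow_lt_rpow (h.nonneg _) (h0 n hn) hp
  rwa [← Real.rpow_mul hε.le, one_div, inv_mul_cancel₀ hp.ne', Real.rpow_one] at h1

lemma transfer (hp : 0 < p) {K : Type u} [MetricSpace K] {base : K} {δ : K → X}
    (h : IsLipschitzFreePSpace p base N δ) :
    ∃ E : FreeP p base →ₗ[ℝ] X, Function.Bijective E ∧ ∀ x, N (E x) = pnorm p x := by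
  let _ : NormedAddCommGroup X := h.isPBanach.toNormed hp
  have hnorm : ∀ x : X, ‖x‖ = N x ^ p := fun x => rfl
  have hcomp : CompleteSpace X := h.isPBanach.completeSpace hp
  have hsmul : ∀ (a : ℝ) (x : X), ‖a • x‖ = |a| ^ p * ‖x‖ := by
    intro a x
    rw [hnorm, hnorm, h.isPBanach.smul, Real.mul_rpow (abs_nonneg _) (h.isPBanach.nonneg _)]
  have hconst : ∀ a : ℝ, Continuous (fun x : X => a • x) := by
    intro a
    have : LipschitzWith (Real.toNNReal (|a| ^ p)) (fun x : X => a • x) := by
      refine LipschitzWith.of_dist_le_mul fun x y => ?_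
      rw [dist_eq_norm, dist_eq_norm, ← smul_sub, Real.coe_toNNReal _ (by positivity), hsmul]
    exact this.continuous
  set J₀ : PreFree p base →ₗ[ℝ] X :=
    (Finsupp.linearCombination ℝ δ).comp (PreFree.incl p base) with hJ₀
  have hN : ∀ μ : PreFree p base, N (J₀ μ) = pnorm p (μ : FreeP p base) := by
    intro μ
    obtain ⟨l, hl⟩ := exists_mol base μ.2
    have h1 : PreFree.incl p base μ = ∑ i : Fin l.length, (l.get i).1 •
        (Finsupp.single (l.get i).2.1 (1 : ℝ) - Finsupp.single (l.get i).2.2 (1 : ℝ)) := by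
      rw [← mol_ofFn, ← list_eq_ofFn]
      exact hl.symm
    have h2 : J₀ μ = ∑ i : Fin l.length, (l.get i).1 • (δ (l.get i).2.1 - δ (l.get i).2.2) := by
      rw [hJ₀, LinearMap.comp_apply, h1, map_sum]
      refine Finset.sum_congr rfl fun i _ => ?_
      rw [map_smul, map_sub, Finsupp.linearCombination_single, Finsupp.linearCombination_single,
        one_smul, one_smul]
    rw [h2, h.norm_eq, ← h1, freeNorm_eq hp]
  have hJ₀n : ∀ μ : PreFree p base, ‖J₀ μ‖ = ‖μ‖ := by
    intro μ
    rw [hnorm, hN, pnorm_pow hp, Completion.norm_coe]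
  have hJ₀c : Continuous J₀.toAddMonoidHom := by
    have : Isometry (J₀.toAddMonoidHom : PreFree p base → X) := by
      refine Isometry.of_dist_eq fun x y => ?_
      rw [dist_eq_norm, dist_eq_norm, ← map_sub]
      exact hJ₀n _
    exact this.continuous
  set J := J₀.toAddMonoidHom.extension hJ₀c with hJ
  have hJc : Continuous J := AddMonoidHom.continuous_extension _ hJ₀c
  have hJcoe : ∀ μ : PreFree p base, J (μ : FreeP p base) = J₀ μ := fun μ =>
    AddMonoidHom.extension_coe _ hJ₀c μ
  have hJn : ∀ x : FreeP p base, ‖J x‖ = ‖x‖ := by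
    intro x
    induction x using Completion.induction_on with
    | hp => exact isClosed_eq (continuous_norm.comp hJc) continuous_norm
    | ih μ => rw [hJcoe, Completion.norm_coe, hJ₀n]
  let E : FreeP p base →ₗ[ℝ] X :=
    { toFun := J
      map_add' := map_add J
      map_smul' := by
        intro a x
        simp only [RingHom.id_apply]
        induction x using Completion.induction_on with
        | hp =>
          exact isClosed_eq (hJc.comp (continuous_const_smul a)) ((hconst a).comp hJc)
        | ih μ => rw [← Completion.coe_smul, hJcoe, hJcoe, map_smul] }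
  have hE : ∀ x, E x = J x := fun x => rfl
  refine ⟨E, ⟨?_, ?_⟩, ?_⟩
  · intro x y hxy
    have h1 : ‖x - y‖ = 0 := by
      rw [← hJn, map_sub, ← hE, ← hE, hxy, sub_self, norm_zero]
    exact sub_eq_zero.1 (norm_eq_zero.1 h1)
  · have hiso : Isometry E := by
      refine Isometry.of_dist_eq fun x y => ?_
      rw [dist_eq_norm, dist_eq_norm, ← map_sub]
      exact hJn _
    have hclosed : IsClosed (Set.range E) := hiso.isClosedEmbedding.isClosed_range
    have hspan : Submodule.span ℝ (Set.range δ) ≤ LinearMap.range E := by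
      rw [Submodule.span_le]
      rintro _ ⟨x, rfl⟩
      refine ⟨freeDelta p base x, ?_⟩
      have h1 : E (freeDelta p base x) = J₀ (preDelta p base x) := hJcoe _
      rw [h1, hJ₀, LinearMap.comp_apply, incl_preDelta, delta, map_sub,
        Finsupp.linearCombination_single, Finsupp.linearCombination_single, one_smul, one_smul,
        h.map_base, sub_zero]
    intro y
    have hy : y ∈ closure (Set.range E) := by
      rw [Metric.mem_closure_iff]
      intro ε hε
      obtain ⟨v, hv, hvy⟩ := h.dense y (ε ^ (1 / p)) (Real.rpow_pos_of_pos hε _)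
      refine ⟨v, hspan hv, ?_⟩
      rw [dist_eq_norm, hnorm]
      have h1 := Real.rpow_lt_rpow (h.isPBanach.nonneg _) hvy hp
      rwa [← Real.rpow_mul hε.le, one_div, inv_mul_cancel₀ hp.ne', Real.rpow_one] at h1
    rw [hclosed.closure_eq] at hy
    exact hy
  · intro x
    have h1 : N (E x) ^ p = ‖x‖ := hJn x
    unfold pnorm
    rw [← h1, ← Real.rpow_mul (h.isPBanach.nonneg _), one_div, mul_inv_cancel₀ hp.ne',
      Real.rpow_one]

/-- The main theorem, for an arbitrary model of the Lipschitz free `p`-space. -/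
theorem main (hp0 : 0 < p) (hp1 : p ≤ 1) {K : Type u} [MetricSpace K] [ProperSpace K]
    [Countable K] {base : K} {δ : K → X} (h : IsLipschitzFreePSpace p base N δ) : HasMAP N := by
  obtain ⟨E, hEb, hEN⟩ := transfer hp0 h
  set e : FreeP p base ≃ₗ[ℝ] X := LinearEquiv.ofBijective E hEb with he
  have heN : ∀ x, N (e x) = pnorm p x := hEN
  have heN' : ∀ y, pnorm p (e.symm y) = N y := by
    intro y
    rw [← heN, LinearEquiv.apply_symm_apply]
  intro C hC ε hε
  have hC' : IsCompact (e ⁻¹' C) := by
    rw [isCompact_iff_isSeqCompact]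
    intro v hv
    obtain ⟨x, hx, φ, hφ, hlim⟩ := hC (fun n => e (v n)) hv
    refine ⟨e.symm x, by simpa using hx, φ, hφ, ?_⟩
    rw [tendsto_iff_norm_sub_tendsto_zero]
    have h1 : ∀ n, ‖(v ∘ φ) n - e.symm x‖ = N (e (v (φ n)) - x) ^ p := by
      intro n
      rw [← pnorm_pow hp0, ← heN, map_sub, LinearEquiv.apply_symm_apply]
      rfl
    simp only [h1]
    have h2 := hlim.rpow_const (p := p) (Or.inr hp0.le)
    rwa [Real.zero_rpow hp0.ne'] at h2
  obtain ⟨T, hTfin, hTn, hTc⟩ := hasMAP_freeP p hp0 hp1 K base _ hC' ε hε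
  refine ⟨(e : FreeP p base →ₗ[ℝ] X).comp (T.comp (e.symm : X →ₗ[ℝ] FreeP p base)), ?_, ?_, ?_⟩
  · have h1 : LinearMap.range ((e : FreeP p base →ₗ[ℝ] X).comp
        (T.comp (e.symm : X →ₗ[ℝ] FreeP p base))) ≤
        (LinearMap.range T).map (e : FreeP p base →ₗ[ℝ] X) := by
      rintro _ ⟨y, rfl⟩
      exact Submodule.mem_map.2 ⟨T (e.symm y), ⟨e.symm y, rfl⟩, rfl⟩
    exact Submodule.finiteDimensional_of_le h1
  · intro y
    have h1 : ((e : FreeP p base →ₗ[ℝ] X).comp
        (T.comp (e.symm : X →ₗ[ℝ] FreeP p base))) y = e (T (e.symm y)) := rfl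
    rw [h1, heN, ← heN' y]
    exact hTn _
  · intro y hy
    have h1 : ((e : FreeP p base →ₗ[ℝ] X).comp
        (T.comp (e.symm : X →ₗ[ℝ] FreeP p base))) y - y = e (T (e.symm y) - e.symm y) := by
      rw [map_sub, LinearEquiv.apply_symm_apply]
      rfl
    rw [h1, heN]
    exact hTc _ (by simpa using hy)

end Transfer

end Pool.Agent.MP557517
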